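import Pool.Agent.HTen.Cst

/-!
# Order `7` on `[0, 7/10]`
-/

set_option autoImplicit false

namespace Pool.Agent.HTen

open Finset Polynomial Pool.Agent.HStar Pool.Agent.HFin Pool.Agent.HSixP1

theorem mj7_1_1 {x : ℝ} (h0 : 0 ≤ x) (h1 : x ≤ 2 / 5) : mj 1 x ≤ 3 / 8 := by
  obtain ⟨y, rfl⟩ : ∃ y, x = 0 + y := ⟨x - (0), by ring⟩
  have y0 : 0 ≤ y := by linarith
  have y1 : y ≤ 2 / 5 := by linarith
  have P : ∀ i : ℕ, 0 ≤ y ^ i ∧ y ^ (i + 1) ≤ 2 / 5 * y ^ i := by
    intro i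
    have hi := pow_nonneg y0 i
    refine ⟨hi, ?_⟩
    rw [pow_succ, mul_comm]
    exact mul_le_mul_of_nonneg_right y1 hi
  have e : 3 / 8 - mj 1 (0 + y) = (3/8) * y ^ 1 + (-3/4) * y ^ 2 + (-1/4) * y ^ 3 + (1/8) * y ^ 4 + (3/40) * y ^ 5 := by
    unfold mj WW
    push_cast
    ring
  have q1 := P 1
  have q2 := P 2
  have q3 := P 3
  have q4 := P 4
  have q5 := P 5
  norm_num at q1 q2 q3 q4 q5
  linarith [q1.1, q1.2, q2.1, q2.2, q3.1, q3.2, q4.1, q4.2, q5.1, q5.2]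

theorem mj7_1_2 {x : ℝ} (h0 : 0 ≤ x) (h1 : x ≤ 2 / 5) : mj 2 x ≤ 1 / 5 := by
  obtain ⟨y, rfl⟩ : ∃ y, x = 0 + y := ⟨x - (0), by ring⟩
  have y0 : 0 ≤ y := by linarith
  have y1 : y ≤ 2 / 5 := by linarith
  have P : ∀ i : ℕ, 0 ≤ y ^ i ∧ y ^ (i + 1) ≤ 2 / 5 * y ^ i := by
    intro i
    have hi := pow_nonneg y0 i
    refine ⟨hi, ?_⟩
    rw [pow_succ, mul_comm]
    exact mul_le_mul_of_nonneg_right y1 hi
  have e : 1 / 5 - mj 2 (0 + y) = (2/5) * y ^ 1 + (-1) * y ^ 2 := by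
    unfold mj WW
    push_cast
    ring
  have q1 := P 1
  have q2 := P 2
  norm_num at q1 q2
  linarith [q1.1, q1.2, q2.1, q2.2]

theorem mj7_1_3 {x : ℝ} (h0 : 0 ≤ x) (h1 : x ≤ 2 / 5) : mj 3 x ≤ 31 / 200 := by
  obtain ⟨y, rfl⟩ : ∃ y, x = 0 + y := ⟨x - (0), by ring⟩
  have y0 : 0 ≤ y := by linarith
  have y1 : y ≤ 2 / 5 := by linarith
  have P : ∀ i : ℕ, 0 ≤ y ^ i ∧ y ^ (i + 1) ≤ 2 / 5 * y ^ i := by
    intro i
    have hi := pow_nonneg y0 i
    refine ⟨hi, ?_⟩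
    rw [pow_succ, mul_comm]
    exact mul_le_mul_of_nonneg_right y1 hi
  have e : 31 / 200 - mj 3 (0 + y) = (3/100) + (3/8) * y ^ 1 + (-9/8) * y ^ 2 + (3/8) * y ^ 3 + (-3/8) * y ^ 4 + (-3/40) * y ^ 5 + (1/40) * y ^ 6 + (3/280) * y ^ 7 := by
    unfold mj WW
    push_cast
    ring
  have q1 := P 1
  have q2 := P 2
  have q3 := P 3
  have q4 := P 4
  have q5 := P 5
  have q6 := P 6
  have q7 := P 7
  norm_num at q1 q2 q3 q4 q5 q6 q7
  linarith [q1.1, q1.2, q2.1, q2.2, q3.1, q3.2, q4.1, q4.2, q5.1, q5.2, q6.1, q6.2, q7.1, q7.2]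

theorem pw7_1 {N : ℕ} (hN : 8 ≤ N) {L : Fin N → ℂ} (hL : ∀ a, ‖L a‖ ≤ 1)
    {x : ℝ} (hax : 0 ≤ x) (hxb : x ≤ 2 / 5)
    (htp : 29 / 4 ≤ ∑ a, (1 - (L a).re)) (htm : 27 / 4 ≤ ∑ a, (1 + (L a).re)) :
    PW L 7 x := by
  have hx1 : x < 1 := by linarith
  have hNr : (8:ℝ) ≤ N := by exact_mod_cast hN
  refine pw_cst (by omega) (by norm_num) hL (a := 0) (b := 2 / 5) (tp := 29 / 4) (tm := 27 / 4) (u0 := 1 / 16)
    (bb := fun j => if j = 1 then 2821 / 1000 else if j = 2 then 12033 / 2000 else if j = 3 then 2541 / 200 else if j = 4 then 33663 / 400 else if j = 5 then 67599 / 1000 else if j = 6 then 31241 / 1000 else if j = 7 then 321 / 50 else 0)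
    (lam := fun j => if j = 2 then 3247 / 2000 else if j = 3 then 1687 / 400 else if j = 4 then 1141 / 125 else if j = 5 then 1019 / 250 else if j = 6 then 261 / 200 else if j = 7 then 19 / 1000 else 0)
    (by norm_num) hax hxb (by norm_num) htp htm (by norm_num) (by linarith) (by norm_num) (by norm_num)
    ?_ ?_ ?_ (by norm_num) ?_ ?_ ?_ ?_
  · intro M hM j hj hjk
    interval_cases j
    · refine d_T3 (j := 0) (d := 9) hL (by omega) (by norm_num) hax hxb hx1.le hM (by omega)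
        (mj7_1_1 hax hxb) ?_
      norm_num [gq, gam, Finset.sum_range_succ, Nat.choose]
    · refine d_T3 (j := 1) (d := 9) hL (by omega) (by norm_num) hax hxb hx1.le hM (by omega)
        (mj7_1_2 hax hxb) ?_
      norm_num [gq, gam, Finset.sum_range_succ, Nat.choose]
    · refine d_T3 (j := 2) (d := 9) hL (by omega) (by norm_num) hax hxb hx1.le hM (by omega)
        (mj7_1_3 hax hxb) ?_
      norm_num [gq, gam, Finset.sum_range_succ, Nat.choose]
    · refine d_T1 (j := 4) (d := 9) hL (by omega) (by norm_num) hax hx1.le hM (by omega) ?_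
      norm_num [tt, gam, Finset.sum_range_succ, Nat.choose]
    · refine d_T1 (j := 5) (d := 9) hL (by omega) (by norm_num) hax hx1.le hM (by omega) ?_
      norm_num [tt, gam, Finset.sum_range_succ, Nat.choose]
    · refine d_T1 (j := 6) (d := 9) hL (by omega) (by norm_num) hax hx1.le hM (by omega) ?_
      norm_num [tt, gam, Finset.sum_range_succ, Nat.choose]
    · refine d_T1 (j := 7) (d := 9) hL (by omega) (by norm_num) hax hx1.le hM (by omega) ?_
      norm_num [tt, gam, Finset.sum_range_succ, Nat.choose]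
  · intro j
    split_ifs <;> norm_num
  · intro j
    split_ifs <;> norm_num
  · intro i hi hi4
    interval_cases i <;> norm_num [Ef]
  · intro i hi hi4
    interval_cases i <;> norm_num [Ef]
  · intro j hj hjk
    interval_cases j <;> norm_num
  · intro j hj hjk
    interval_cases j <;> norm_num

theorem mj7_2_1 {x : ℝ} (h0 : 2 / 5 ≤ x) (h1 : x ≤ 3 / 5) : mj 1 x ≤ 453 / 1000 := by
  obtain ⟨y, rfl⟩ : ∃ y, x = 2 / 5 + y := ⟨x - (2 / 5), by ring⟩
  have y0 : 0 ≤ y := by linarith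
  have y1 : y ≤ 1 / 5 := by linarith
  have P : ∀ i : ℕ, 0 ≤ y ^ i ∧ y ^ (i + 1) ≤ 1 / 5 * y ^ i := by
    intro i
    have hi := pow_nonneg y0 i
    refine ⟨hi, ?_⟩
    rw [pow_succ, mul_comm]
    exact mul_le_mul_of_nonneg_right y1 hi
  have e : 453 / 1000 - mj 1 (2 / 5 + y) = (2999/31250) + (-1517/5000) * y ^ 1 + (-441/500) * y ^ 2 + (7/100) * y ^ 3 + (11/40) * y ^ 4 + (3/40) * y ^ 5 := by
    unfold mj WW
    push_cast
    ring
  have q1 := P 1
  have q2 := P 2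
  have q3 := P 3
  have q4 := P 4
  have q5 := P 5
  norm_num at q1 q2 q3 q4 q5
  linarith [q1.1, q1.2, q2.1, q2.2, q3.1, q3.2, q4.1, q4.2, q5.1, q5.2]

theorem mj7_2_2 {x : ℝ} (h0 : 2 / 5 ≤ x) (h1 : x ≤ 3 / 5) : mj 2 x ≤ 8 / 25 := by
  obtain ⟨y, rfl⟩ : ∃ y, x = 2 / 5 + y := ⟨x - (2 / 5), by ring⟩
  have y0 : 0 ≤ y := by linarith
  have y1 : y ≤ 1 / 5 := by linarith
  have P : ∀ i : ℕ, 0 ≤ y ^ i ∧ y ^ (i + 1) ≤ 1 / 5 * y ^ i := by
    intro i
    have hi := pow_nonneg y0 i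
    refine ⟨hi, ?_⟩
    rw [pow_succ, mul_comm]
    exact mul_le_mul_of_nonneg_right y1 hi
  have e : 8 / 25 - mj 2 (2 / 5 + y) = (3/25) + (-2/5) * y ^ 1 + (-1) * y ^ 2 := by
    unfold mj WW
    push_cast
    ring
  have q1 := P 1
  have q2 := P 2
  norm_num at q1 q2
  linarith [q1.1, q1.2, q2.1, q2.2]

theorem mj7_2_3 {x : ℝ} (h0 : 2 / 5 ≤ x) (h1 : x ≤ 3 / 5) : mj 3 x ≤ 277 / 1000 := by
  obtain ⟨y, rfl⟩ : ∃ y, x = 2 / 5 + y := ⟨x - (2 / 5), by ring⟩
  have y0 : 0 ≤ y := by linarith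
  have y1 : y ≤ 1 / 5 := by linarith
  have P : ∀ i : ℕ, 0 ≤ y ^ i ∧ y ^ (i + 1) ≤ 1 / 5 * y ^ i := by
    intro i
    have hi := pow_nonneg y0 i
    refine ⟨hi, ?_⟩
    rw [pow_succ, mul_comm]
    exact mul_le_mul_of_nonneg_right y1 hi
  have e : 277 / 1000 - mj 3 (2 / 5 + y) = (1484787/10937500) + (-280473/625000) * y ^ 1 + (-133887/125000) * y ^ 2 + (-1517/5000) * y ^ 3 + (-441/1000) * y ^ 4 + (21/1000) * y ^ 5 + (11/200) * y ^ 6 + (3/280) * y ^ 7 := by
    unfold mj WW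
    push_cast
    ring
  have q1 := P 1
  have q2 := P 2
  have q3 := P 3
  have q4 := P 4
  have q5 := P 5
  have q6 := P 6
  have q7 := P 7
  norm_num at q1 q2 q3 q4 q5 q6 q7
  linarith [q1.1, q1.2, q2.1, q2.2, q3.1, q3.2, q4.1, q4.2, q5.1, q5.2, q6.1, q6.2, q7.1, q7.2]

theorem pw7_2 {N : ℕ} (hN : 8 ≤ N) {L : Fin N → ℂ} (hL : ∀ a, ‖L a‖ ≤ 1)
    {x : ℝ} (hax : 2 / 5 ≤ x) (hxb : x ≤ 3 / 5)
    (htp : 29 / 4 ≤ ∑ a, (1 - (L a).re)) (htm : 27 / 4 ≤ ∑ a, (1 + (L a).re)) :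
    PW L 7 x := by
  have hx1 : x < 1 := by linarith
  have hNr : (8:ℝ) ≤ N := by exact_mod_cast hN
  refine pw_cst (by omega) (by norm_num) hL (a := 2 / 5) (b := 3 / 5) (tp := 29 / 4) (tm := 27 / 4) (u0 := 1 / 16)
    (bb := fun j => if j = 1 then 3367 / 1000 else if j = 2 then 16317 / 2000 else if j = 3 then 1463 / 100 else if j = 4 then 7973 / 400 else if j = 5 then 24297 / 2000 else if j = 6 then 441 / 100 else if j = 7 then 183 / 250 else 0)
    (lam := fun j => if j = 2 then 1423 / 1000 else if j = 3 then 2261 / 1000 else if j = 4 then 1141 / 500 else if j = 5 then 347 / 400 else if j = 6 then 379 / 2000 else if j = 7 then 0 else 0)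
    (by norm_num) hax hxb (by norm_num) htp htm (by norm_num) (by linarith) (by norm_num) (by norm_num)
    ?_ ?_ ?_ (by norm_num) ?_ ?_ ?_ ?_
  · intro M hM j hj hjk
    interval_cases j
    · refine d_T3 (j := 0) (d := 9) hL (by omega) (by norm_num) hax hxb hx1.le hM (by omega)
        (mj7_2_1 hax hxb) ?_
      norm_num [gq, gam, Finset.sum_range_succ, Nat.choose]
    · refine d_T3 (j := 1) (d := 9) hL (by omega) (by norm_num) hax hxb hx1.le hM (by omega)
        (mj7_2_2 hax hxb) ?_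
      norm_num [gq, gam, Finset.sum_range_succ, Nat.choose]
    · refine d_T3 (j := 2) (d := 9) hL (by omega) (by norm_num) hax hxb hx1.le hM (by omega)
        (mj7_2_3 hax hxb) ?_
      norm_num [gq, gam, Finset.sum_range_succ, Nat.choose]
    · refine d_T1 (j := 4) (d := 9) hL (by omega) (by norm_num) hax hx1.le hM (by omega) ?_
      norm_num [tt, gam, Finset.sum_range_succ, Nat.choose]
    · refine d_T1 (j := 5) (d := 9) hL (by omega) (by norm_num) hax hx1.le hM (by omega) ?_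
      norm_num [tt, gam, Finset.sum_range_succ, Nat.choose]
    · refine d_T1 (j := 6) (d := 9) hL (by omega) (by norm_num) hax hx1.le hM (by omega) ?_
      norm_num [tt, gam, Finset.sum_range_succ, Nat.choose]
    · refine d_T1 (j := 7) (d := 9) hL (by omega) (by norm_num) hax hx1.le hM (by omega) ?_
      norm_num [tt, gam, Finset.sum_range_succ, Nat.choose]
  · intro j
    split_ifs <;> norm_num
  · intro j
    split_ifs <;> norm_num
  · intro i hi hi4
    interval_cases i <;> norm_num [Ef]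
  · intro i hi hi4
    interval_cases i <;> norm_num [Ef]
  · intro j hj hjk
    interval_cases j <;> norm_num
  · intro j hj hjk
    interval_cases j <;> norm_num

theorem mj7_3_1 {x : ℝ} (h0 : 3 / 5 ≤ x) (h1 : x ≤ 7 / 10) : mj 1 x ≤ 1047 / 2000 := by
  obtain ⟨y, rfl⟩ : ∃ y, x = 3 / 5 + y := ⟨x - (3 / 5), by ring⟩
  have y0 : 0 ≤ y := by linarith
  have y1 : y ≤ 1 / 10 := by linarith
  have P : ∀ i : ℕ, 0 ≤ y ^ i ∧ y ^ (i + 1) ≤ 1 / 10 * y ^ i := by
    intro i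
    have hi := pow_nonneg y0 i
    refine ⟨hi, ?_⟩
    rw [pow_succ, mul_comm]
    exact mul_le_mul_of_nonneg_right y1 hi
  have e : 1047 / 2000 - mj 1 (3 / 5 + y) = (17883/250000) + (-399/625) * y ^ 1 + (-96/125) * y ^ 2 + (8/25) * y ^ 3 + (7/20) * y ^ 4 + (3/40) * y ^ 5 := by
    unfold mj WW
    push_cast
    ring
  have q1 := P 1
  have q2 := P 2
  have q3 := P 3
  have q4 := P 4
  have q5 := P 5
  norm_num at q1 q2 q3 q4 q5
  linarith [q1.1, q1.2, q2.1, q2.2, q3.1, q3.2, q4.1, q4.2, q5.1, q5.2]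

theorem pw7_3 {N : ℕ} (hN : 8 ≤ N) {L : Fin N → ℂ} (hL : ∀ a, ‖L a‖ ≤ 1)
    {x : ℝ} (hax : 3 / 5 ≤ x) (hxb : x ≤ 7 / 10)
    (htp : 29 / 4 ≤ ∑ a, (1 - (L a).re)) (htm : 27 / 4 ≤ ∑ a, (1 + (L a).re)) :
    PW L 7 x := by
  have hx1 : x < 1 := by linarith
  have hNr : (8:ℝ) ≤ N := by exact_mod_cast hN
  refine pw_cst (by omega) (by norm_num) hL (a := 3 / 5) (b := 7 / 10) (tp := 29 / 4) (tm := 27 / 4) (u0 := 1 / 16)
    (bb := fun j => if j = 1 then 7721 / 2000 else if j = 2 then 8253 / 1000 else if j = 3 then 497 / 50 else if j = 4 then 637 / 80 else if j = 5 then 8463 / 2000 else if j = 6 then 343 / 250 else if j = 7 then 413 / 2000 else 0)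
    (lam := fun j => if j = 2 then 1241 / 1000 else if j = 3 then 2771 / 2000 else if j = 4 then 1937 / 2000 else if j = 5 then 367 / 1000 else if j = 6 then 61 / 1000 else if j = 7 then 1 / 400 else 0)
    (by norm_num) hax hxb (by norm_num) htp htm (by norm_num) (by linarith) (by norm_num) (by norm_num)
    ?_ ?_ ?_ (by norm_num) ?_ ?_ ?_ ?_
  · intro M hM j hj hjk
    interval_cases j
    · refine d_T3 (j := 0) (d := 9) hL (by omega) (by norm_num) hax hxb hx1.le hM (by omega)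
        (mj7_3_1 hax hxb) ?_
      norm_num [gq, gam, Finset.sum_range_succ, Nat.choose]
    · refine d_T1 (j := 2) (d := 9) hL (by omega) (by norm_num) hax hx1.le hM (by omega) ?_
      norm_num [tt, gam, Finset.sum_range_succ, Nat.choose]
    · refine d_T1 (j := 3) (d := 9) hL (by omega) (by norm_num) hax hx1.le hM (by omega) ?_
      norm_num [tt, gam, Finset.sum_range_succ, Nat.choose]
    · refine d_T1 (j := 4) (d := 9) hL (by omega) (by norm_num) hax hx1.le hM (by omega) ?_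
      norm_num [tt, gam, Finset.sum_range_succ, Nat.choose]
    · refine d_T1 (j := 5) (d := 9) hL (by omega) (by norm_num) hax hx1.le hM (by omega) ?_
      norm_num [tt, gam, Finset.sum_range_succ, Nat.choose]
    · refine d_T1 (j := 6) (d := 9) hL (by omega) (by norm_num) hax hx1.le hM (by omega) ?_
      norm_num [tt, gam, Finset.sum_range_succ, Nat.choose]
    · refine d_T1 (j := 7) (d := 9) hL (by omega) (by norm_num) hax hx1.le hM (by omega) ?_
      norm_num [tt, gam, Finset.sum_range_succ, Nat.choose]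
  · intro j
    split_ifs <;> norm_num
  · intro j
    split_ifs <;> norm_num
  · intro i hi hi4
    interval_cases i <;> norm_num [Ef]
  · intro i hi hi4
    interval_cases i <;> norm_num [Ef]
  · intro j hj hjk
    interval_cases j <;> norm_num
  · intro j hj hjk
    interval_cases j <;> norm_num

end Pool.Agent.HTen
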