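import Pool.Agent.HTen.Ints
import Pool.Agent.HStar.Asm2
import Pool.Agent.HHalfC.COppT

/-!
# Orders `k ≥ 8` in the middle region, `0 ≤ x ≤ 7/10`
-/

set_option autoImplicit false

namespace Pool.Agent.HTen

open Polynomial Pool.Agent.HStar Pool.Agent.HFin Pool.Agent.HSixP1

/-- All orders `k ≥ 8`, all `N ≥ k + 1`, `0 ≤ x ≤ 7/10`. -/
theorem pw_low {N k : ℕ} (hk8 : 8 ≤ k) (hkN : k + 1 ≤ N) {L : Fin N → ℂ} (hL : ∀ a, ‖L a‖ ≤ 1)
    {x : ℝ} (hx0 : 0 ≤ x) (hx7 : x ≤ 7 / 10) (htp : thr N k < ∑ a, (1 - (L a).re)) :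
    PW L k x := by
  have hthr : (k:ℝ) + 1 / 4 ≤ thr N k := by
    unfold thr Pool.Agent.HHalfC.cth
    rw [if_neg (by omega), if_neg (by omega), if_neg (by omega), if_neg (by omega)]
    split_ifs <;> linarith
  have htp' : (k:ℝ) + 1 / 4 ≤ ∑ a, (1 - (L a).re) := hthr.trans htp.le
  by_cases hm : ∑ a, (1 + (L a).re) ≤ (k:ℝ) - 1 / 4
  · intro g hg hb
    exact Pool.Agent.HHalfC.pointwise_opp hL (by omega) (by omega) ⟨by linarith, by linarith⟩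
      (Or.inl ⟨hx0, hm⟩) hg hb
  push Not at hm
  rcases le_total x (1 / 4) with h1 | h1
  · exact pw_int1 hk8 hkN hL hx0 h1 htp' hm.le
  rcases le_total x (1 / 2) with h2 | h2
  · exact pw_int2 hk8 hkN hL h1 h2 htp' hm.le
  rcases le_total x (3 / 5) with h3 | h3
  · exact pw_int3 hk8 hkN hL h2 h3 htp' hm.le
  · exact pw_int4 hk8 hkN hL h3 hx7 htp' hm.le

end Pool.Agent.HTen
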