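import Pool.Agent.HTen.K6
import Pool.Agent.HTen.K7
import Pool.Agent.HTen.Main

/-!
# Orders `k ≥ 6` in the middle region, `0 ≤ x ≤ 7/10`
-/

set_option autoImplicit false

namespace Pool.Agent.HTen

open Polynomial Pool.Agent.HStar Pool.Agent.HFin Pool.Agent.HSixP1

theorem pw_low6 {N : ℕ} (hN : 7 ≤ N) {L : Fin N → ℂ} (hL : ∀ a, ‖L a‖ ≤ 1)
    {x : ℝ} (hx0 : 0 ≤ x) (hx7 : x ≤ 7 / 10) (htp : thr N 6 < ∑ a, (1 - (L a).re)) :
    PW L 6 x := by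
  have hthr : (25:ℝ) / 4 ≤ thr N 6 := by
    unfold thr Pool.Agent.HHalfC.cth
    rw [if_neg (by omega), if_neg (by omega), if_neg (by omega), if_neg (by omega)]
    split_ifs <;> norm_num
  have htp' : (25:ℝ) / 4 ≤ ∑ a, (1 - (L a).re) := hthr.trans htp.le
  by_cases hm : ∑ a, (1 + (L a).re) ≤ (23:ℝ) / 4
  · intro g hg hb
    exact Pool.Agent.HHalfC.pointwise_opp hL (by omega) (by omega) ⟨by linarith, by linarith⟩
      (Or.inl ⟨hx0, by norm_num; linarith⟩) hg hb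
  push Not at hm
  rcases le_total x (1 / 4) with h1 | h1
  · exact pw6_1 hN hL hx0 h1 htp' hm.le
  rcases le_total x (1 / 2) with h2 | h2
  · exact pw6_2 hN hL h1 h2 htp' hm.le
  rcases le_total x (3 / 5) with h3 | h3
  · exact pw6_3 hN hL h2 h3 htp' hm.le
  rcases le_total x (13 / 20) with h4 | h4
  · exact pw6_4 hN hL h3 h4 htp' hm.le
  · exact pw6_5 hN hL h4 hx7 htp' hm.le

theorem pw_low7 {N : ℕ} (hN : 8 ≤ N) {L : Fin N → ℂ} (hL : ∀ a, ‖L a‖ ≤ 1)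
    {x : ℝ} (hx0 : 0 ≤ x) (hx7 : x ≤ 7 / 10) (htp : thr N 7 < ∑ a, (1 - (L a).re)) :
    PW L 7 x := by
  have hthr : (29:ℝ) / 4 ≤ thr N 7 := by
    unfold thr Pool.Agent.HHalfC.cth
    rw [if_neg (by omega), if_neg (by omega), if_neg (by omega), if_neg (by omega)]
    split_ifs <;> norm_num
  have htp' : (29:ℝ) / 4 ≤ ∑ a, (1 - (L a).re) := hthr.trans htp.le
  by_cases hm : ∑ a, (1 + (L a).re) ≤ (27:ℝ) / 4
  · intro g hg hb
    exact Pool.Agent.HHalfC.pointwise_opp hL (by omega) (by omega) ⟨by linarith, by linarith⟩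
      (Or.inl ⟨hx0, by norm_num; linarith⟩) hg hb
  push Not at hm
  rcases le_total x (2 / 5) with h1 | h1
  · exact pw7_1 hN hL hx0 h1 htp' hm.le
  rcases le_total x (3 / 5) with h2 | h2
  · exact pw7_2 hN hL h1 h2 htp' hm.le
  · exact pw7_3 hN hL h2 hx7 htp' hm.le

/-- All orders `k ≥ 6`, all `N ≥ k + 1`, `0 ≤ x ≤ 7/10`. -/
theorem pw_low_all {N k : ℕ} (hk6 : 6 ≤ k) (hkN : k + 1 ≤ N) {L : Fin N → ℂ}
    (hL : ∀ a, ‖L a‖ ≤ 1) {x : ℝ} (hx0 : 0 ≤ x) (hx7 : x ≤ 7 / 10)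
    (htp : thr N k < ∑ a, (1 - (L a).re)) : PW L k x := by
  rcases Nat.lt_or_ge k 8 with h | h
  · have : k = 6 ∨ k = 7 := by omega
    rcases this with rfl | rfl
    · exact pw_low6 hkN hL hx0 hx7 htp
    · exact pw_low7 hkN hL hx0 hx7 htp
  · exact pw_low h hkN hL hx0 hx7 htp

end Pool.Agent.HTen
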