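import Pool.Agent.HTen.Tay

set_option autoImplicit false

namespace Pool.Agent.HTen

open Finset

/-- The density `(3/4)(1-t)(1+t)^2`. -/
noncomputable def nu (t : ℝ) : ℝ := 3 / 4 * ((1 - t) * (1 + t) ^ 2)

theorem nu_nonneg {t : ℝ} (ht : t ∈ Set.Icc (-1:ℝ) 1) : 0 ≤ nu t := by
  unfold nu
  have h1 : 0 ≤ 1 - t := by linarith [ht.2]
  positivity

/-- The antiderivative of `nu * (Taylor sum)`. -/
noncomputable def BB (h : ℕ → ℝ → ℝ) (x : ℝ) (m j : ℕ) (t : ℝ) : ℝ :=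
  nu t * (TS h x 1 (m + 3) j t / (m + 4)) -
  (3 / 4 * (1 - 2 * t - 3 * t ^ 2)) * (TS h x 2 (m + 2) j t / ((m + 4) * (m + 3))) +
  (3 / 4 * (-2 - 6 * t)) * (TS h x 3 (m + 1) j t / ((m + 4) * (m + 3) * (m + 2))) -
  (-9 / 2) * (TS h x 4 m j t / ((m + 4) * (m + 3) * (m + 2) * (m + 1)))

theorem hasDerivAt_BB {h : ℕ → ℝ → ℝ} (hd : NSeq h) (x : ℝ) (m j : ℕ) (t : ℝ) :
    HasDerivAt (BB h x m j) (nu t * TS h x 0 (m + 4) j t) t := by
  have h1 := (hasDerivAt_TS hd x 0 (m + 3) j t).div_const ((m:ℝ) + 4)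
  have h2 := (hasDerivAt_TS hd x 1 (m + 2) j t).div_const (((m:ℝ) + 4) * (m + 3))
  have h3 := (hasDerivAt_TS hd x 2 (m + 1) j t).div_const (((m:ℝ) + 4) * (m + 3) * (m + 2))
  have h4 := (hasDerivAt_TS hd x 3 m j t).div_const
    (((m:ℝ) + 4) * (m + 3) * (m + 2) * (m + 1))
  have n1 : HasDerivAt nu (3 / 4 * (1 - 2 * t - 3 * t ^ 2)) t := by
    have e : nu = fun t : ℝ => 3 / 4 * (1 + t - t ^ 2 - t ^ 3) := by
      funext u; unfold nu; ring
    rw [e]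
    have := ((((hasDerivAt_const t (1:ℝ)).fun_add (hasDerivAt_id' t)).fun_sub
      (hasDerivAt_pow 2 t)).fun_sub (hasDerivAt_pow 3 t)).const_mul (3 / 4 : ℝ)
    refine this.congr_deriv ?_
    norm_num
  have n2 : HasDerivAt (fun t : ℝ => 3 / 4 * (1 - 2 * t - 3 * t ^ 2)) (3 / 4 * (-2 - 6 * t)) t := by
    have := (((hasDerivAt_const t (1:ℝ)).fun_sub ((hasDerivAt_id' t).const_mul 2)).fun_sub
      ((hasDerivAt_pow 2 t).const_mul 3)).const_mul (3 / 4 : ℝ)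
    refine this.congr_deriv ?_
    norm_num
    ring
  have n3 : HasDerivAt (fun t : ℝ => 3 / 4 * (-2 - 6 * t)) (-9 / 2) t := by
    have := ((hasDerivAt_const t (-2:ℝ)).fun_sub ((hasDerivAt_id' t).const_mul 6)).const_mul
      (3 / 4 : ℝ)
    refine this.congr_deriv ?_
    norm_num
  have key := (((n1.fun_mul h1).fun_sub (n2.fun_mul h2)).fun_add (n3.fun_mul h3)).fun_sub
    (h4.const_mul (-9 / 2 : ℝ))
  refine key.congr_deriv ?_
  have c1 : ((m:ℝ) + 1) ≠ 0 := by positivity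
  have c2 : ((m:ℝ) + 2) ≠ 0 := by positivity
  have c3 : ((m:ℝ) + 3) ≠ 0 := by positivity
  have c4 : ((m:ℝ) + 4) ≠ 0 := by positivity
  push_cast
  have e1 : TS h x 0 (m + 3 + 1) j t = TS h x 0 (m + 4) j t := rfl
  have e2 : TS h x 1 (m + 2 + 1) j t = TS h x 1 (m + 3) j t := rfl
  have e3 : TS h x 2 (m + 1 + 1) j t = TS h x 2 (m + 2) j t := rfl
  rw [e1, e2, e3]
  have f1 : ((m:ℝ) + 3 + 1) * TS h x 0 (m + 4) j t / (m + 4) = TS h x 0 (m + 4) j t := by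
    rw [div_eq_iff c4]; ring
  have f2 : ((m:ℝ) + 2 + 1) * TS h x 1 (m + 3) j t / ((m + 4) * (m + 3)) =
      TS h x 1 (m + 3) j t / (m + 4) := by
    rw [div_eq_div_iff (mul_ne_zero c4 c3) c4]; ring
  have f3 : ((m:ℝ) + 1 + 1) * TS h x 2 (m + 2) j t / ((m + 4) * (m + 3) * (m + 2)) =
      TS h x 2 (m + 2) j t / ((m + 4) * (m + 3)) := by
    rw [div_eq_div_iff (mul_ne_zero (mul_ne_zero c4 c3) c2) (mul_ne_zero c4 c3)]; ring
  have f4 : ((m:ℝ) + 1) * TS h x 3 (m + 1) j t / ((m + 4) * (m + 3) * (m + 2) * (m + 1)) =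
      TS h x 3 (m + 1) j t / ((m + 4) * (m + 3) * (m + 2)) := by
    rw [div_eq_div_iff (mul_ne_zero (mul_ne_zero (mul_ne_zero c4 c3) c2) c1)
      (mul_ne_zero (mul_ne_zero c4 c3) c2)]; ring
  rw [f1, f2, f3, f4]
  ring

/-- `∫_x^t nu(u) (u - x)^j du`. -/
noncomputable def WW (j : ℕ) (x t : ℝ) : ℝ :=
  3 / 4 * ((1 + x - x ^ 2 - x ^ 3) * ((t - x) ^ (j + 1) / (j + 1)) +
    (1 - 2 * x - 3 * x ^ 2) * ((t - x) ^ (j + 2) / (j + 2)) +
    (-1 - 3 * x) * ((t - x) ^ (j + 3) / (j + 3)) - (t - x) ^ (j + 4) / (j + 4))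

theorem WW_self (j : ℕ) (x : ℝ) : WW j x x = 0 := by
  simp [WW]

theorem hasDerivAt_WW (j : ℕ) (x t : ℝ) :
    HasDerivAt (WW j x) (nu t * (t - x) ^ j) t := by
  have h0 : HasDerivAt (fun u : ℝ => u - x) 1 t := by
    simpa using (hasDerivAt_id t).sub_const x
  have hp : ∀ r : ℕ, HasDerivAt (fun u : ℝ => (u - x) ^ (j + r + 1) / (j + r + 1))
      ((t - x) ^ (j + r)) t := by
    intro r
    have h1 := (h0.fun_pow (j + r + 1)).div_const ((j:ℝ) + r + 1)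
    refine h1.congr_deriv ?_
    have : ((j:ℝ) + r + 1) ≠ 0 := by positivity
    rw [div_eq_iff this]
    push_cast
    ring
  have h1 := hp 0
  have h2 := hp 1
  have h3 := hp 2
  have h4 := hp 3
  have key := ((((h1.const_mul (1 + x - x ^ 2 - x ^ 3)).fun_add
    (h2.const_mul (1 - 2 * x - 3 * x ^ 2))).fun_add (h3.const_mul (-1 - 3 * x))).fun_sub
    h4).const_mul (3 / 4 : ℝ)
  have e : (fun u : ℝ => 3 / 4 * ((1 + x - x ^ 2 - x ^ 3) * ((u - x) ^ (j + 0 + 1) /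
      ((j:ℝ) + (0:ℕ) + 1)) + (1 - 2 * x - 3 * x ^ 2) * ((u - x) ^ (j + 1 + 1) /
      ((j:ℝ) + (1:ℕ) + 1)) + (-1 - 3 * x) * ((u - x) ^ (j + 2 + 1) / ((j:ℝ) + (2:ℕ) + 1)) -
      (u - x) ^ (j + 3 + 1) / ((j:ℝ) + (3:ℕ) + 1))) = WW j x := by
    funext u
    unfold WW
    push_cast
    ring_nf
  rw [e] at key
  refine key.congr_deriv ?_
  unfold nu
  rw [pow_add _ j 0, pow_add _ j 1, pow_add _ j 2, pow_add _ j 3]
  ring

/-- `∫ nu |x - t|^j`. -/
noncomputable def mj (j : ℕ) (x : ℝ) : ℝ := WW j x 1 - (-1) ^ j * WW j x (-1)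

/-- The increment estimate: `h (m+4)` is the integral of `nu * TS` up to `C M m_j`. -/
theorem T3_incr {h : ℕ → ℝ → ℝ} (hd : NSeq h) {M : ℝ} {m j : ℕ}
    (hM : ∀ t ∈ Set.Icc (-1:ℝ) 1, |h (m + 4 + (j + 1)) t| ≤ M) {x : ℝ}
    (hx : x ∈ Set.Icc (-1:ℝ) 1) :
    |h (m + 4) x - (BB h x m (j + 1) 1 - BB h x m (j + 1) (-1))| ≤
      ((m + 4 + (j + 1)).choose (j + 1) : ℝ) * M * mj (j + 1) x := by
  set C : ℝ := ((m + 4 + (j + 1)).choose (j + 1) : ℝ) with hC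
  have hC0 : 0 ≤ C := Nat.cast_nonneg _
  have hM0 : 0 ≤ M := (abs_nonneg _).trans (hM x hx)
  set H := h (m + 4) x with hH
  have hF : ∀ t : ℝ, HasDerivAt (fun t : ℝ => 3 / 4 * (t + t ^ 2 / 2 - t ^ 3 / 3 - t ^ 4 / 4))
      (nu t) t := by
    intro t
    have := ((((hasDerivAt_id' t).fun_add ((hasDerivAt_pow 2 t).div_const 2)).fun_sub
      ((hasDerivAt_pow 3 t).div_const 3)).fun_sub ((hasDerivAt_pow 4 t).div_const 4)).const_mul
      (3 / 4 : ℝ)
    refine this.congr_deriv ?_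
    unfold nu
    norm_num
    ring
  have hf : ∀ t : ℝ, HasDerivAt (fun t : ℝ => BB h x m (j + 1) t -
      H * (3 / 4 * (t + t ^ 2 / 2 - t ^ 3 / 3 - t ^ 4 / 4)))
      (nu t * TS h x 0 (m + 4) (j + 1) t - H * nu t) t := fun t =>
    (hasDerivAt_BB hd x m (j + 1) t).fun_sub ((hF t).const_mul H)
  have hb : ∀ t ∈ Set.Icc (-1:ℝ) 1, |nu t * TS h x 0 (m + 4) (j + 1) t - H * nu t| ≤
      nu t * (C * |x - t| ^ (j + 1) * M) := by
    intro t ht
    have h1 := taylor_bd hd hM hx ht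
    have e : nu t * TS h x 0 (m + 4) (j + 1) t - H * nu t =
        -(nu t * (h (m + 4) x - TS h x 0 (m + 4) (j + 1) t)) := by rw [hH]; ring
    rw [e, abs_neg, abs_mul, abs_of_nonneg (nu_nonneg ht)]
    exact mul_le_mul_of_nonneg_left h1 (nu_nonneg ht)
  -- right part
  have r1 := abs_sub_le_of_deriv hx.2 hf (g := fun t => C * M * WW (j + 1) x t)
    (fun t => (hasDerivAt_WW (j + 1) x t).const_mul (C * M)) (fun t ht => by
      have ht' : t ∈ Set.Icc (-1:ℝ) 1 := ⟨hx.1.trans ht.1, ht.2⟩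
      refine (hb t ht').trans (le_of_eq ?_)
      rw [abs_sub_comm, abs_of_nonneg (by linarith [ht.1] : 0 ≤ t - x)]
      ring)
  have r2 := abs_sub_le_of_deriv hx.1 hf (g := fun t => C * M * ((-1) ^ (j + 1) * WW (j + 1) x t))
    (fun t => ((hasDerivAt_WW (j + 1) x t).const_mul ((-1) ^ (j + 1))).const_mul (C * M))
    (fun t ht => by
      have ht' : t ∈ Set.Icc (-1:ℝ) 1 := ⟨ht.1, ht.2.trans hx.2⟩
      refine (hb t ht').trans (le_of_eq ?_)
      rw [abs_of_nonneg (by linarith [ht.2] : 0 ≤ x - t)]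
      have : (x - t) ^ (j + 1) = (-1) ^ (j + 1) * (t - x) ^ (j + 1) := by
        rw [← mul_pow]; congr 1; ring
      rw [this]
      ring)
  simp only [WW_self, mul_zero, sub_zero, zero_sub] at r1 r2
  set b1 := BB h x m (j + 1) 1
  set b2 := BB h x m (j + 1) (-1)
  set b3 := BB h x m (j + 1) x
  have e : H - (b1 - b2) = -((b1 - H * (3 / 4 * (1 + 1 ^ 2 / 2 - 1 ^ 3 / 3 - 1 ^ 4 / 4)) -
        (b3 - H * (3 / 4 * (x + x ^ 2 / 2 - x ^ 3 / 3 - x ^ 4 / 4)))) +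
      (b3 - H * (3 / 4 * (x + x ^ 2 / 2 - x ^ 3 / 3 - x ^ 4 / 4)) -
        (b2 - H * (3 / 4 * (-1 + (-1) ^ 2 / 2 - (-1) ^ 3 / 3 - (-1) ^ 4 / 4))))) := by
    ring
  rw [e, abs_neg]
  refine (abs_add_le _ _).trans ?_
  have e2 : C * M * mj (j + 1) x = C * M * WW (j + 1) x 1 +
      -(C * M * ((-1) ^ (j + 1) * WW (j + 1) x (-1))) := by
    unfold mj; ring
  rw [e2]
  exact add_le_add r1 r2

/-- The absolute bound of a Taylor sum at an end point. -/
theorem abs_TS_le {h : ℕ → ℝ → ℝ} {M x t : ℝ} {q m j k : ℕ} {gam : ℕ → ℝ} (hk : k = m + q + j)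
    (hend : ∀ l, l ≤ k → |h (k - l) t| ≤ (k.choose l : ℝ) * gam l * M) :
    |TS h x q m j t| ≤ (k.choose (j + q) : ℝ) * M * ∑ i ∈ range j,
      ((j - 1 - i + q).choose q : ℝ) * ((j + q).choose i : ℝ) * |x - t| ^ i * gam (j + q - i) := by
  unfold TS
  refine (abs_sum_le_sum_abs _ _).trans ?_
  rw [mul_sum]
  refine sum_le_sum fun i hi => ?_
  have hij : i < j := mem_range.1 hi
  have h1 := hend (j + q - i) (by omega)
  rw [show k - (j + q - i) = m + i by omega] at h1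
  rw [abs_mul, abs_mul, abs_pow, abs_of_nonneg
    (by positivity : (0:ℝ) ≤ ((j - 1 - i + q).choose q : ℝ) * ((m + i).choose i : ℝ))]
  have c1 : ((m + i).choose i : ℝ) * (k.choose (j + q - i) : ℝ) =
      (k.choose (j + q) : ℝ) * ((j + q).choose i : ℝ) := by
    have e1 : k.choose (j + q - i) = k.choose (m + i) := by
      rw [← Nat.choose_symm_of_eq_add (by omega : k = (m + i) + (j + q - i))]
    have e2 : k.choose (j + q) = k.choose m := by
      rw [← Nat.choose_symm_of_eq_add (by omega : k = m + (j + q))]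
    have e3 : (m + i).choose i = (m + i).choose m := by
      rw [← Nat.choose_symm_of_eq_add (by ring : m + i = m + i)]
    have e4 := Nat.choose_mul (n := k) (k := m + i) (s := m) (by omega)
    have e5 : k - m = j + q := by omega
    have e6 : m + i - m = i := by omega
    rw [e5, e6] at e4
    rw [e1, e2, e3]
    have : ((k.choose (m + i) : ℝ)) * ((m + i).choose m : ℝ) =
      (k.choose m : ℝ) * ((j + q).choose i : ℝ) := by exact_mod_cast e4
    linarith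
  calc ((j - 1 - i + q).choose q : ℝ) * ((m + i).choose i : ℝ) * |x - t| ^ i * |h (m + i) t|
      ≤ ((j - 1 - i + q).choose q : ℝ) * ((m + i).choose i : ℝ) * |x - t| ^ i *
        ((k.choose (j + q - i) : ℝ) * gam (j + q - i) * M) :=
        mul_le_mul_of_nonneg_left h1 (by positivity)
    _ = ((j - 1 - i + q).choose q : ℝ) * (((m + i).choose i : ℝ) * (k.choose (j + q - i) : ℝ)) *
        |x - t| ^ i * gam (j + q - i) * M := by ring
    _ = _ := by rw [c1]; ring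

/-- The normalised boundary sums. -/
noncomputable def gq (gam : ℕ → ℝ) (q j : ℕ) (dl : ℝ) : ℝ :=
  ∑ i ∈ range j, ((j - 1 - i + q).choose q : ℝ) * ((j + q).choose i : ℝ) * dl ^ i *
    gam (j + q - i)

/-- THE T3 BOUND with the density `(3/4)(1-t)(1+t)^2`. -/
theorem T3 {h : ℕ → ℝ → ℝ} (hd : NSeq h) {M : ℝ} {m j k : ℕ} (hk : k = m + 4 + (j + 1))
    (hM : ∀ t ∈ Set.Icc (-1:ℝ) 1, |h k t| ≤ M) {gam : ℕ → ℝ}
    (hend : ∀ t : ℝ, t = 1 ∨ t = -1 → ∀ l, l ≤ k → |h (k - l) t| ≤ (k.choose l : ℝ) * gam l * M)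
    {x : ℝ} (hx : x ∈ Set.Icc (-1:ℝ) 1) :
    |h (k - (j + 1)) x| ≤ (k.choose (j + 1) : ℝ) * M * (mj (j + 1) x +
      3 * (gq gam 2 (j + 1) (1 - x) / ((j + 2) * (j + 3))) +
      6 * (gq gam 3 (j + 1) (1 - x) / ((j + 2) * (j + 3) * (j + 4))) +
      9 / 2 * (gq gam 4 (j + 1) (1 - x) / ((j + 2) * (j + 3) * (j + 4) * (j + 5))) +
      3 * (gq gam 3 (j + 1) (1 + x) / ((j + 2) * (j + 3) * (j + 4))) +
      9 / 2 * (gq gam 4 (j + 1) (1 + x) / ((j + 2) * (j + 3) * (j + 4) * (j + 5)))) := by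
  have h1 := T3_incr (m := m) (j := j) hd (by rw [← hk]; exact hM) hx
  rw [← hk] at h1
  have e0 : k - (j + 1) = m + 4 := by omega
  rw [e0]
  have a1 : |x - 1| = 1 - x := by rw [abs_sub_comm, abs_of_nonneg]; linarith [hx.2]
  have a2 : |x - (-1)| = 1 + x := by rw [abs_of_nonneg]; ring; linarith [hx.1]
  -- choose ratios
  have c1 : ((j:ℝ) + 2) * (k.choose (j + 1 + 1) : ℝ) = (m + 4) * (k.choose (j + 1) : ℝ) := by
    have := Nat.choose_succ_right_eq k (j + 1)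
    rw [e0] at this
    have h2 : (k.choose (j + 1 + 1) : ℝ) * ((j + 1 + 1 : ℕ) : ℝ) =
      (k.choose (j + 1) : ℝ) * ((m + 4 : ℕ) : ℝ) := by exact_mod_cast this
    push_cast at h2
    linarith
  have c2 : ((j:ℝ) + 3) * (k.choose (j + 1 + 2) : ℝ) = (m + 3) * (k.choose (j + 1 + 1) : ℝ) := by
    have := Nat.choose_succ_right_eq k (j + 1 + 1)
    rw [show k - (j + 1 + 1) = m + 3 by omega] at this
    have h2 : (k.choose (j + 1 + 1 + 1) : ℝ) * ((j + 1 + 1 + 1 : ℕ) : ℝ) =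
      (k.choose (j + 1 + 1) : ℝ) * ((m + 3 : ℕ) : ℝ) := by exact_mod_cast this
    push_cast at h2
    rw [show j + 1 + 2 = j + 1 + 1 + 1 by ring]
    linarith
  have c3 : ((j:ℝ) + 4) * (k.choose (j + 1 + 3) : ℝ) = (m + 2) * (k.choose (j + 1 + 2) : ℝ) := by
    have := Nat.choose_succ_right_eq k (j + 1 + 2)
    rw [show k - (j + 1 + 2) = m + 2 by omega] at this
    have h2 : (k.choose (j + 1 + 2 + 1) : ℝ) * ((j + 1 + 2 + 1 : ℕ) : ℝ) =
      (k.choose (j + 1 + 2) : ℝ) * ((m + 2 : ℕ) : ℝ) := by exact_mod_cast this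
    push_cast at h2
    rw [show j + 1 + 3 = j + 1 + 2 + 1 by ring]
    linarith
  have c4 : ((j:ℝ) + 5) * (k.choose (j + 1 + 4) : ℝ) = (m + 1) * (k.choose (j + 1 + 3) : ℝ) := by
    have := Nat.choose_succ_right_eq k (j + 1 + 3)
    rw [show k - (j + 1 + 3) = m + 1 by omega] at this
    have h2 : (k.choose (j + 1 + 3 + 1) : ℝ) * ((j + 1 + 3 + 1 : ℕ) : ℝ) =
      (k.choose (j + 1 + 3) : ℝ) * ((m + 1 : ℕ) : ℝ) := by exact_mod_cast this
    push_cast at h2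
    rw [show j + 1 + 4 = j + 1 + 3 + 1 by ring]
    linarith
  have p1 : (0:ℝ) < (m:ℝ) + 1 := by positivity
  have p2 : (0:ℝ) < (m:ℝ) + 2 := by positivity
  have p3 : (0:ℝ) < (m:ℝ) + 3 := by positivity
  have p4 : (0:ℝ) < (m:ℝ) + 4 := by positivity
  have q2 : (0:ℝ) < (j:ℝ) + 2 := by positivity
  have q3 : (0:ℝ) < (j:ℝ) + 3 := by positivity
  have q4 : (0:ℝ) < (j:ℝ) + 4 := by positivity
  have q5 : (0:ℝ) < (j:ℝ) + 5 := by positivity
  set K := (k.choose (j + 1) : ℝ) with hK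
  have d2 : (k.choose (j + 1 + 2) : ℝ) / ((m + 4) * (m + 3)) = K / ((j + 2) * (j + 3)) := by
    rw [div_eq_div_iff (by positivity) (by positivity)]
    calc (k.choose (j + 1 + 2) : ℝ) * (((j:ℝ) + 2) * (j + 3))
        = (((j:ℝ) + 3) * (k.choose (j + 1 + 2) : ℝ)) * (j + 2) := by ring
      _ = (m + 3) * (((j:ℝ) + 2) * (k.choose (j + 1 + 1) : ℝ)) := by rw [c2]; ring
      _ = _ := by rw [c1]; ring
  have d3 : (k.choose (j + 1 + 3) : ℝ) / ((m + 4) * (m + 3) * (m + 2)) =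
      K / ((j + 2) * (j + 3) * (j + 4)) := by
    rw [div_eq_div_iff (by positivity) (by positivity)] at d2 ⊢
    calc (k.choose (j + 1 + 3) : ℝ) * (((j:ℝ) + 2) * (j + 3) * (j + 4))
        = (((j:ℝ) + 4) * (k.choose (j + 1 + 3) : ℝ)) * ((j + 2) * (j + 3)) := by ring
      _ = (m + 2) * ((k.choose (j + 1 + 2) : ℝ) * (((j:ℝ) + 2) * (j + 3))) := by rw [c3]; ring
      _ = _ := by rw [d2]; ring
  have d4 : (k.choose (j + 1 + 4) : ℝ) / ((m + 4) * (m + 3) * (m + 2) * (m + 1)) =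
      K / ((j + 2) * (j + 3) * (j + 4) * (j + 5)) := by
    rw [div_eq_div_iff (by positivity) (by positivity)] at d3 ⊢
    calc (k.choose (j + 1 + 4) : ℝ) * (((j:ℝ) + 2) * (j + 3) * (j + 4) * (j + 5))
        = (((j:ℝ) + 5) * (k.choose (j + 1 + 4) : ℝ)) * ((j + 2) * (j + 3) * (j + 4)) := by ring
      _ = (m + 1) * ((k.choose (j + 1 + 3) : ℝ) * (((j:ℝ) + 2) * (j + 3) * (j + 4))) := by
          rw [c4]; ring
      _ = _ := by rw [d3]; ring
  have t2 := abs_TS_le (x := x) (t := 1) (q := 2) (m := m + 2) (j := j + 1) (k := k) (gam := gam)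
    (by omega) (hend 1 (Or.inl rfl))
  have t3 := abs_TS_le (x := x) (t := 1) (q := 3) (m := m + 1) (j := j + 1) (k := k) (gam := gam)
    (by omega) (hend 1 (Or.inl rfl))
  have t4 := abs_TS_le (x := x) (t := 1) (q := 4) (m := m) (j := j + 1) (k := k) (gam := gam)
    (by omega) (hend 1 (Or.inl rfl))
  have s3 := abs_TS_le (x := x) (t := -1) (q := 3) (m := m + 1) (j := j + 1) (k := k) (gam := gam)
    (by omega) (hend (-1) (Or.inr rfl))
  have s4 := abs_TS_le (x := x) (t := -1) (q := 4) (m := m) (j := j + 1) (k := k) (gam := gam)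
    (by omega) (hend (-1) (Or.inr rfl))
  rw [a1] at t2 t3 t4
  rw [a2] at s3 s4
  change _ ≤ _ * gq gam 2 (j + 1) (1 - x) at t2
  change _ ≤ _ * gq gam 3 (j + 1) (1 - x) at t3
  change _ ≤ _ * gq gam 4 (j + 1) (1 - x) at t4
  change _ ≤ _ * gq gam 3 (j + 1) (1 + x) at s3
  change _ ≤ _ * gq gam 4 (j + 1) (1 + x) at s4
  have u2 : |TS h x 2 (m + 2) (j + 1) 1 / ((m + 4) * (m + 3))| ≤
      K * M * (gq gam 2 (j + 1) (1 - x) / ((j + 2) * (j + 3))) := by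
    rw [abs_div, abs_of_pos (by positivity : (0:ℝ) < ((m:ℝ) + 4) * (m + 3))]
    calc _ ≤ (k.choose (j + 1 + 2) : ℝ) * M * gq gam 2 (j + 1) (1 - x) / ((m + 4) * (m + 3)) :=
          div_le_div_of_nonneg_right t2 (by positivity)
      _ = (k.choose (j + 1 + 2) : ℝ) / ((m + 4) * (m + 3)) * (M * gq gam 2 (j + 1) (1 - x)) := by
          ring
      _ = _ := by rw [d2]; ring
  have u3 : |TS h x 3 (m + 1) (j + 1) 1 / ((m + 4) * (m + 3) * (m + 2))| ≤
      K * M * (gq gam 3 (j + 1) (1 - x) / ((j + 2) * (j + 3) * (j + 4))) := by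
    rw [abs_div, abs_of_pos (by positivity : (0:ℝ) < ((m:ℝ) + 4) * (m + 3) * (m + 2))]
    calc _ ≤ (k.choose (j + 1 + 3) : ℝ) * M * gq gam 3 (j + 1) (1 - x) /
            ((m + 4) * (m + 3) * (m + 2)) :=
          div_le_div_of_nonneg_right t3 (by positivity)
      _ = (k.choose (j + 1 + 3) : ℝ) / ((m + 4) * (m + 3) * (m + 2)) *
            (M * gq gam 3 (j + 1) (1 - x)) := by ring
      _ = _ := by rw [d3]; ring
  have u4 : |TS h x 4 m (j + 1) 1 / ((m + 4) * (m + 3) * (m + 2) * (m + 1))| ≤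
      K * M * (gq gam 4 (j + 1) (1 - x) / ((j + 2) * (j + 3) * (j + 4) * (j + 5))) := by
    rw [abs_div, abs_of_pos (by positivity : (0:ℝ) < ((m:ℝ) + 4) * (m + 3) * (m + 2) * (m + 1))]
    calc _ ≤ (k.choose (j + 1 + 4) : ℝ) * M * gq gam 4 (j + 1) (1 - x) /
            ((m + 4) * (m + 3) * (m + 2) * (m + 1)) :=
          div_le_div_of_nonneg_right t4 (by positivity)
      _ = (k.choose (j + 1 + 4) : ℝ) / ((m + 4) * (m + 3) * (m + 2) * (m + 1)) *
            (M * gq gam 4 (j + 1) (1 - x)) := by ring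
      _ = _ := by rw [d4]; ring
  have v3 : |TS h x 3 (m + 1) (j + 1) (-1) / ((m + 4) * (m + 3) * (m + 2))| ≤
      K * M * (gq gam 3 (j + 1) (1 + x) / ((j + 2) * (j + 3) * (j + 4))) := by
    rw [abs_div, abs_of_pos (by positivity : (0:ℝ) < ((m:ℝ) + 4) * (m + 3) * (m + 2))]
    calc _ ≤ (k.choose (j + 1 + 3) : ℝ) * M * gq gam 3 (j + 1) (1 + x) /
            ((m + 4) * (m + 3) * (m + 2)) :=
          div_le_div_of_nonneg_right s3 (by positivity)
      _ = (k.choose (j + 1 + 3) : ℝ) / ((m + 4) * (m + 3) * (m + 2)) *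
            (M * gq gam 3 (j + 1) (1 + x)) := by ring
      _ = _ := by rw [d3]; ring
  have v4 : |TS h x 4 m (j + 1) (-1) / ((m + 4) * (m + 3) * (m + 2) * (m + 1))| ≤
      K * M * (gq gam 4 (j + 1) (1 + x) / ((j + 2) * (j + 3) * (j + 4) * (j + 5))) := by
    rw [abs_div, abs_of_pos (by positivity : (0:ℝ) < ((m:ℝ) + 4) * (m + 3) * (m + 2) * (m + 1))]
    calc _ ≤ (k.choose (j + 1 + 4) : ℝ) * M * gq gam 4 (j + 1) (1 + x) /
            ((m + 4) * (m + 3) * (m + 2) * (m + 1)) :=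
          div_le_div_of_nonneg_right s4 (by positivity)
      _ = (k.choose (j + 1 + 4) : ℝ) / ((m + 4) * (m + 3) * (m + 2) * (m + 1)) *
            (M * gq gam 4 (j + 1) (1 + x)) := by ring
      _ = _ := by rw [d4]; ring
  have b1 : BB h x m (j + 1) 1 = 3 * (TS h x 2 (m + 2) (j + 1) 1 / ((m + 4) * (m + 3))) -
      6 * (TS h x 3 (m + 1) (j + 1) 1 / ((m + 4) * (m + 3) * (m + 2))) +
      9 / 2 * (TS h x 4 m (j + 1) 1 / ((m + 4) * (m + 3) * (m + 2) * (m + 1))) := by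
    unfold BB nu
    ring
  have b2 : BB h x m (j + 1) (-1) = 
      3 * (TS h x 3 (m + 1) (j + 1) (-1) / ((m + 4) * (m + 3) * (m + 2))) +
      9 / 2 * (TS h x 4 m (j + 1) (-1) / ((m + 4) * (m + 3) * (m + 2) * (m + 1))) := by
    unfold BB nu
    ring
  rw [b1, b2] at h1
  rw [abs_le] at h1 u2 u3 u4 v3 v4 ⊢
  constructor <;> nlinarith [h1.1, h1.2, u2.1, u2.2, u3.1, u3.2, u4.1, u4.2, v3.1, v3.2, v4.1, v4.2]

end Pool.Agent.HTen
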