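import Pool.Agent.HTen.Sum
import Pool.Agent.HTen.Den

set_option autoImplicit false

namespace Pool.Agent.HTen

open Finset Polynomial Pool.Agent.HStar Pool.Agent.HFin Pool.Agent.HSixP1

/-- The end values in the normalised form. -/
theorem end_gam {N k : ℕ} {L : Fin N → ℂ} (hL : ∀ a, ‖L a‖ ≤ 1) (hk : k ≤ 2 * N) {M : ℝ}
    (hM : IsM L k M) {t : ℝ} (ht : |t| = 1) {l : ℕ} (hl : l ≤ k) :
    |hv L (k - l) t| ≤ (k.choose l : ℝ) * gam (2 * N - k) l * M := by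
  set d := 2 * N - k with hd
  have htI : t ∈ Set.Icc (-1:ℝ) 1 := by
    have := abs_le.1 ht.le
    exact ⟨this.1, this.2⟩
  have h3 := hv_end hL (i := k - l) (k := k) (by omega) hk ht
  have e3 : k - (k - l) = l := by omega
  rw [e3] at h3
  have h4 : |hv L k t| ≤ M := hM t htI
  have hb : (((2 * N).choose (k - l) * (d + l).choose l : ℕ) : ℝ) =
      (((2 * N).choose k * k.choose l : ℕ) : ℝ) := by
    have b1 := Nat.choose_mul (n := 2 * N) (k := k) (s := k - l) (by omega)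
    have e4 : 2 * N - (k - l) = d + l := by omega
    rw [e4, e3] at b1
    have b3 : k.choose (k - l) = k.choose l := Nat.choose_symm hl
    rw [b3] at b1
    rw [b1]
  push_cast at hb
  have hA : (0:ℝ) < ((2 * N).choose k : ℕ) := by exact_mod_cast Nat.choose_pos hk
  have hC := choose_pos' d l
  have h5 : ((2 * N).choose k : ℕ) * |hv L (k - l) t| ≤
      2 ^ l * ((2 * N).choose (k - l) : ℕ) * M :=
    h3.trans (mul_le_mul_of_nonneg_left h4 (by positivity))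
  have h7 : ((2 * N).choose k : ℕ) * |hv L (k - l) t| ≤
      ((2 * N).choose k : ℕ) * ((k.choose l : ℝ) * gam d l * M) := by
    refine h5.trans (le_of_eq ?_)
    unfold gam
    have e7 : (((2 * N).choose k : ℕ) : ℝ) * ((k.choose l : ℝ) *
        (2 ^ l / ((d + l).choose l : ℕ)) * M) =
        (((2 * N).choose k : ℕ) * (k.choose l : ℝ) * 2 ^ l * M) / ((d + l).choose l : ℕ) := by
      ring
    rw [e7, eq_div_iff hC.ne']
    linear_combination ((2:ℝ) ^ l * M) * hb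
  exact le_of_mul_le_mul_left h7 hA

theorem nseq_hv {N : ℕ} (L : Fin N → ℂ) : NSeq (hv L) := fun m t => hseq_hv L m t

/-- Monotonicity of the boundary sums. -/
theorem gq_mono {g g' : ℕ → ℝ} (hg : ∀ l, 0 ≤ g l) (hgg : ∀ l, g l ≤ g' l) (q j : ℕ) {a b : ℝ}
    (ha : 0 ≤ a) (hab : a ≤ b) : gq g q j a ≤ gq g' q j b := by
  unfold gq
  refine sum_le_sum fun i _ => ?_
  have h1 : a ^ i ≤ b ^ i := pow_le_pow_left₀ ha hab i
  exact mul_le_mul (mul_le_mul_of_nonneg_left h1 (by positivity)) (hgg _) (hg _)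
    (mul_nonneg (by positivity) (pow_nonneg (ha.trans hab) i))

theorem gq_nonneg {g : ℕ → ℝ} (hg : ∀ l, 0 ≤ g l) (q j : ℕ) {a : ℝ} (ha : 0 ≤ a) :
    0 ≤ gq g q j a := by
  unfold gq
  refine sum_nonneg fun i _ => ?_
  have := hg (j + q - i)
  positivity

/-- The T1 bound on `[a, 1]`, `k ≥ 8`. -/
theorem c_T1 {N k : ℕ} {L : Fin N → ℂ} (hL : ∀ a, ‖L a‖ ≤ 1) (hk8 : 8 ≤ k) (hkN : k + 1 ≤ N)
    {x M a c : ℝ} (ha0 : 0 ≤ a) (hax : a ≤ x) (hx1 : x ≤ 1) (hM : IsM L k M) {j : ℕ} (hj : j ≤ k)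
    (hc : tt 10 (1 - a) j ≤ c) :
    |(hasseDeriv (k - j) (omR L)).eval x| ≤ (k.choose j : ℝ) * c * M := by
  have hM0 : 0 ≤ M := (abs_nonneg _).trans (hM x ⟨by linarith, hx1⟩)
  have h := T1 hL (by omega : k ≤ 2 * N) (by linarith : -1 ≤ x) hx1 hM hj
  refine h.trans (mul_le_mul_of_nonneg_right (mul_le_mul_of_nonneg_left ?_ (Nat.cast_nonneg _)) hM0)
  have hs : 0 ≤ 1 - x := by linarith
  exact (tt_anti (by omega : 10 ≤ 2 * N - k) hs j).trans ((tt_mono 10 hs (by linarith) j).trans hc)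

/-- The T3 bound on `[a, b]`, `k ≥ 8`. -/
theorem c_T3 {N k : ℕ} {L : Fin N → ℂ} (hL : ∀ a, ‖L a‖ ≤ 1) (hk8 : 8 ≤ k) (hkN : k + 1 ≤ N)
    {x M a b c mm : ℝ} (ha0 : 0 ≤ a) (hax : a ≤ x) (hxb : x ≤ b) (hx1 : x ≤ 1) (hM : IsM L k M)
    {j : ℕ} (hj : j + 5 ≤ k) (hmm : mj (j + 1) x ≤ mm)
    (hc : mm + 3 * (gq (gam 10) 2 (j + 1) (1 - a) / ((j + 2) * (j + 3))) +
      6 * (gq (gam 10) 3 (j + 1) (1 - a) / ((j + 2) * (j + 3) * (j + 4))) +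
      9 / 2 * (gq (gam 10) 4 (j + 1) (1 - a) / ((j + 2) * (j + 3) * (j + 4) * (j + 5))) +
      3 * (gq (gam 10) 3 (j + 1) (1 + b) / ((j + 2) * (j + 3) * (j + 4))) +
      9 / 2 * (gq (gam 10) 4 (j + 1) (1 + b) / ((j + 2) * (j + 3) * (j + 4) * (j + 5))) ≤ c) :
    |(hasseDeriv (k - (j + 1)) (omR L)).eval x| ≤ (k.choose (j + 1) : ℝ) * c * M := by
  have hxI : x ∈ Set.Icc (-1:ℝ) 1 := ⟨by linarith, hx1⟩
  have hM0 : 0 ≤ M := (abs_nonneg _).trans (hM x hxI)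
  obtain ⟨m, hm⟩ : ∃ m, k = m + 4 + (j + 1) := ⟨k - 5 - j, by omega⟩
  have h := T3 (nseq_hv L) hm (M := M) (fun t ht => hM t ht) (gam := gam (2 * N - k))
    (by
      intro t ht l hl
      have habs : |t| = 1 := by
        rcases ht with rfl | rfl <;> simp
      exact end_gam hL (by omega) hM habs hl) hxI
  have e : (hasseDeriv (k - (j + 1)) (omR L)).eval x = hv L (k - (j + 1)) x := rfl
  rw [e]
  refine h.trans ?_
  have hg0 : ∀ l, 0 ≤ gam (2 * N - k) l := fun l => gam_nonneg _ l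
  have hgg : ∀ l, gam (2 * N - k) l ≤ gam 10 l := fun l => gam_anti (by omega) l
  have g1 := gq_mono hg0 hgg 2 (j + 1) (by linarith : 0 ≤ 1 - x) (by linarith : 1 - x ≤ 1 - a)
  have g2 := gq_mono hg0 hgg 3 (j + 1) (by linarith : 0 ≤ 1 - x) (by linarith : 1 - x ≤ 1 - a)
  have g3 := gq_mono hg0 hgg 4 (j + 1) (by linarith : 0 ≤ 1 - x) (by linarith : 1 - x ≤ 1 - a)
  have g4 := gq_mono hg0 hgg 3 (j + 1) (by linarith : 0 ≤ 1 + x) (by linarith : 1 + x ≤ 1 + b)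
  have g5 := gq_mono hg0 hgg 4 (j + 1) (by linarith : 0 ≤ 1 + x) (by linarith : 1 + x ≤ 1 + b)
  have p3 : (0:ℝ) < ((j:ℝ) + 2) * (j + 3) := by positivity
  have p4 : (0:ℝ) < ((j:ℝ) + 2) * (j + 3) * (j + 4) := by positivity
  have p5 : (0:ℝ) < ((j:ℝ) + 2) * (j + 3) * (j + 4) * (j + 5) := by positivity
  have f1 := div_le_div_of_nonneg_right g1 p3.le
  have f2 := div_le_div_of_nonneg_right g2 p4.le
  have f3 := div_le_div_of_nonneg_right g3 p5.le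
  have f4 := div_le_div_of_nonneg_right g4 p4.le
  have f5 := div_le_div_of_nonneg_right g5 p5.le
  have hK : (0:ℝ) ≤ (k.choose (j + 1) : ℝ) * M := mul_nonneg (Nat.cast_nonneg _) hM0
  calc _ ≤ (k.choose (j + 1) : ℝ) * M * c := mul_le_mul_of_nonneg_left (by linarith) hK
    _ = _ := by ring

/-- The lower bounds of `E`, `k ≥ 8`. -/
theorem E_ok {N k : ℕ} (hk8 : 8 ≤ k) (hkN : k + 1 ≤ N) {x b Cb c : ℝ} (hx0 : 0 ≤ x) (hxb : x ≤ b)
    (hb : b ≤ 7 / 10) (hb0 : 5 / 36 ≤ b) (hC1 : ((3 / 2 + 2 * b) ^ 2 + (3 / 2 + 2 * b)) / 18 +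
      (3 / 2 + 2 * b) ^ 2 / 648 ≤ Cb) (hC2 : (15 / 4) / 18 + (25 / 4) / 648 ≤ Cb)
    (hc : c ≤ 2 * k + 3 / 2 - 2 * b - Cb) :
    c ≤ FE N x ((k - 1 / 4 + x) / N - 1) ∧ c ≤ FE N x (1 - (k + 1 / 4 - x) / N) := by
  have hk8r : (8:ℝ) ≤ k := by exact_mod_cast hk8
  have hkNr : (k:ℝ) + 1 ≤ N := by exact_mod_cast hkN
  have hN : (0:ℝ) < N := by linarith
  set K : ℝ := 2 * k + 2 with hK
  have hK18 : 18 ≤ K := by rw [hK]; linarith
  set u : ℝ := 1 / K with hu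
  have hKpos : 0 < K := by linarith
  have huK : u * K = 1 := by rw [hu]; field_simp
  have hu0 : 0 < u := by positivity
  have hu18 : u ≤ 1 / 18 := by
    rw [hu]
    exact one_div_le_one_div_of_le (by norm_num) hK18
  have hu2 : u ^ 2 ≤ 1 / 324 := by
    calc u ^ 2 ≤ (1 / 18) ^ 2 := pow_le_pow_left₀ hu0.le hu18 2
      _ = 1 / 324 := by norm_num
  -- the two quantities
  set q0 : ℝ := 2 * k + 1 / 2 - 2 * x with hq0
  set p0 : ℝ := 2 * k - 1 / 2 + 2 * x with hp0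
  set δ : ℝ := 3 / 2 + 2 * x with hδ
  set ε : ℝ := 5 / 2 - 2 * x with hε
  have eq0 : q0 = K - δ := by rw [hq0, hK, hδ]; ring
  have ep0 : p0 = K - ε := by rw [hp0, hK, hε]; ring
  have hδ0 : 3 / 2 ≤ δ := by rw [hδ]; linarith
  have hδb : δ ≤ 3 / 2 + 2 * b := by rw [hδ]; linarith
  have hε0 : 11 / 10 ≤ ε := by rw [hε]; linarith
  have hεb : ε ≤ 5 / 2 := by rw [hε]; linarith
  have hδ2 : δ ^ 2 ≤ (3 / 2 + 2 * b) ^ 2 := pow_le_pow_left₀ (by linarith) hδb 2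
  have hε2 : ε ^ 2 ≤ (5 / 2) ^ 2 := pow_le_pow_left₀ (by linarith) hεb 2
  have hεε : ε ^ 2 - ε ≤ 15 / 4 := by nlinarith
  have hεε0 : 0 ≤ ε ^ 2 - ε := by nlinarith
  have B1 : u * (δ ^ 2 + δ) + u ^ 2 * δ ^ 2 / 2 ≤ Cb := by
    have a1 : u * (δ ^ 2 + δ) ≤ 1 / 18 * ((3 / 2 + 2 * b) ^ 2 + (3 / 2 + 2 * b)) :=
      mul_le_mul hu18 (by linarith) (by positivity) (by norm_num)
    have a2 : u ^ 2 * δ ^ 2 ≤ 1 / 324 * (3 / 2 + 2 * b) ^ 2 :=
      mul_le_mul hu2 hδ2 (by positivity) (by norm_num)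
    linarith
  have B2 : u * (ε ^ 2 - ε) + u ^ 2 * ε ^ 2 / 2 ≤ Cb := by
    have a1 : u * (ε ^ 2 - ε) ≤ 1 / 18 * (15 / 4) :=
      mul_le_mul hu18 hεε hεε0 (by norm_num)
    have a2 : u ^ 2 * ε ^ 2 ≤ 1 / 324 * (5 / 2) ^ 2 :=
      mul_le_mul hu2 hε2 (by positivity) (by norm_num)
    linarith
  have B3 : u * (δ ^ 2 - δ) + u ^ 2 * δ ^ 2 / 2 ≤ Cb := by
    have : 0 ≤ u * δ := by positivity
    nlinarith
  have B4 : u * (ε ^ 2 + ε) + u ^ 2 * ε ^ 2 / 2 ≤ Cb + 5 / 18 := by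
    have : u * ε ≤ 1 / 18 * (5 / 2) := mul_le_mul hu18 hεb (by linarith) (by norm_num)
    nlinarith
  have h1 : c ≤ 2 * q0 - 2 - 2 * x - u * (q0 ^ 2 - 2 * q0) - u ^ 2 * q0 ^ 2 / 2 := by
    have e : 2 * q0 - 2 - 2 * x - u * (q0 ^ 2 - 2 * q0) - u ^ 2 * q0 ^ 2 / 2 =
        K - 2 * x - 1 / 2 - (u * (δ ^ 2 + δ) + u ^ 2 * δ ^ 2 / 2) := by
      rw [eq0]
      linear_combination (-K + 2 * δ + 2 - (u * K + 1 - 2 * u * δ) / 2) * huK
    rw [e]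
    have : c ≤ K - 1 / 2 - 2 * b - Cb := by rw [hK]; linarith
    linarith
  have h2 : c ≤ 2 * p0 - 2 * x - u * p0 ^ 2 - u ^ 2 * p0 ^ 2 / 2 := by
    have e : 2 * p0 - 2 * x - u * p0 ^ 2 - u ^ 2 * p0 ^ 2 / 2 =
        K - 2 * x - 1 / 2 - (u * (ε ^ 2 - ε) + u ^ 2 * ε ^ 2 / 2) := by
      rw [ep0]
      linear_combination (-K + 2 * ε - (u * K + 1 - 2 * u * ε) / 2) * huK
    rw [e]
    have : c ≤ K - 1 / 2 - 2 * b - Cb := by rw [hK]; linarith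
    linarith
  have h3 : c ≤ 2 * q0 + 2 * x - u * q0 ^ 2 - u ^ 2 * q0 ^ 2 / 2 := by
    have e : 2 * q0 + 2 * x - u * q0 ^ 2 - u ^ 2 * q0 ^ 2 / 2 =
        K + 2 * x - 1 / 2 - (u * (δ ^ 2 - δ) + u ^ 2 * δ ^ 2 / 2) := by
      rw [eq0]
      linear_combination (-K + 2 * δ - (u * K + 1 - 2 * u * δ) / 2) * huK
    rw [e]
    have : c ≤ K - 1 / 2 - 2 * b - Cb := by rw [hK]; linarith
    linarith
  have h4 : c ≤ 2 * p0 - 2 + 2 * x - u * (p0 ^ 2 - 2 * p0) - u ^ 2 * p0 ^ 2 / 2 := by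
    have e : 2 * p0 - 2 + 2 * x - u * (p0 ^ 2 - 2 * p0) - u ^ 2 * p0 ^ 2 / 2 =
        K + 2 * x - 1 / 2 - (u * (ε ^ 2 + ε) + u ^ 2 * ε ^ 2 / 2) := by
      rw [ep0]
      linear_combination (-K + 2 * ε + 2 - (u * K + 1 - 2 * u * ε) / 2) * huK
    rw [e]
    have : c ≤ K - 1 / 2 - 2 * b - Cb := by rw [hK]; linarith
    linarith
  have hu1 : 1 ≤ u * (2 * N) := by
    have : u * K ≤ u * (2 * N) := mul_le_mul_of_nonneg_left (by rw [hK]; linarith) hu0.le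
    linarith
  have hq2 : 2 ≤ q0 := by rw [hq0]; linarith
  have hp2 : 2 ≤ p0 := by rw [hp0]; linarith
  constructor
  · have := E_low (N := 2 * N) (S := 2 * (k - 1 / 4) - 2 * N) (x := x)
      (m := (k - 1 / 4 + x) / N - 1) (c := c) (u0 := u) (p0 := p0) (q0 := q0) (by linarith) hu1
      (by field_simp; ring) (by rw [hq0]; linarith) (by rw [hp0]; linarith) hq2 hp2 h1 h2 h3 h4
    unfold FE
    exact this
  · have := E_low (N := 2 * N) (S := 2 * N - 2 * (k + 1 / 4)) (x := x)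
      (m := 1 - (k + 1 / 4 - x) / N) (c := c) (u0 := u) (p0 := p0) (q0 := q0) (by linarith) hu1
      (by field_simp; ring) (by rw [hq0]; linarith) (by rw [hp0]; linarith) hq2 hp2 h1 h2 h3 h4
    unfold FE
    exact this

end Pool.Agent.HTen
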