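import Pool.Agent.HTen.Bnd
import Pool.Agent.HSmall.Wrap

/-!
# Piecewise constant certificates for fixed orders
-/

set_option autoImplicit false

namespace Pool.Agent.HTen

open Finset Polynomial Pool.Agent.HStar Pool.Agent.HFin Pool.Agent.HSixP1

/-- The T1 bound on `[a, 1]`. -/
theorem d_T1 {N k d : ℕ} {L : Fin N → ℂ} (hL : ∀ a, ‖L a‖ ≤ 1) (hkN : k + d ≤ 2 * N)
    {x M a c : ℝ} (ha0 : 0 ≤ a) (hax : a ≤ x) (hx1 : x ≤ 1) (hM : IsM L k M) {j : ℕ} (hj : j ≤ k)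
    (hc : (k.choose j : ℝ) * tt d (1 - a) j ≤ c) :
    |hv L (k - j) x| ≤ c * M := by
  have hM0 : 0 ≤ M := (abs_nonneg _).trans (hM x ⟨by linarith, hx1⟩)
  have h := T1 hL (by omega : k ≤ 2 * N) (by linarith : -1 ≤ x) hx1 hM hj
  refine h.trans (mul_le_mul_of_nonneg_right (le_trans ?_ hc) hM0)
  have hs : 0 ≤ 1 - x := by linarith
  exact mul_le_mul_of_nonneg_left
    ((tt_anti (by omega : d ≤ 2 * N - k) hs j).trans (tt_mono d hs (by linarith) j))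
    (Nat.cast_nonneg _)

/-- The T3 bound on `[a, b]`. -/
theorem d_T3 {N k d : ℕ} {L : Fin N → ℂ} (hL : ∀ a, ‖L a‖ ≤ 1) (hkN : k + d ≤ 2 * N)
    {x M a b c mm : ℝ} (ha0 : 0 ≤ a) (hax : a ≤ x) (hxb : x ≤ b) (hx1 : x ≤ 1) (hM : IsM L k M)
    {j : ℕ} (hj : j + 5 ≤ k) (hmm : mj (j + 1) x ≤ mm)
    (hc : (k.choose (j + 1) : ℝ) * (mm +
      3 * (gq (gam d) 2 (j + 1) (1 - a) / ((j + 2) * (j + 3))) +
      6 * (gq (gam d) 3 (j + 1) (1 - a) / ((j + 2) * (j + 3) * (j + 4))) +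
      9 / 2 * (gq (gam d) 4 (j + 1) (1 - a) / ((j + 2) * (j + 3) * (j + 4) * (j + 5))) +
      3 * (gq (gam d) 3 (j + 1) (1 + b) / ((j + 2) * (j + 3) * (j + 4))) +
      9 / 2 * (gq (gam d) 4 (j + 1) (1 + b) / ((j + 2) * (j + 3) * (j + 4) * (j + 5)))) ≤ c) :
    |hv L (k - (j + 1)) x| ≤ c * M := by
  have hxI : x ∈ Set.Icc (-1:ℝ) 1 := ⟨by linarith, hx1⟩
  have hM0 : 0 ≤ M := (abs_nonneg _).trans (hM x hxI)
  obtain ⟨m, hm⟩ : ∃ m, k = m + 4 + (j + 1) := ⟨k - 5 - j, by omega⟩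
  have h := T3 (nseq_hv L) hm (M := M) (fun t ht => hM t ht) (gam := gam (2 * N - k))
    (by
      intro t ht l hl
      have habs : |t| = 1 := by
        rcases ht with rfl | rfl <;> simp
      exact end_gam hL (by omega) hM habs hl) hxI
  refine h.trans ?_
  have hg0 : ∀ l, 0 ≤ gam (2 * N - k) l := fun l => gam_nonneg _ l
  have hgg : ∀ l, gam (2 * N - k) l ≤ gam d l := fun l => gam_anti (by omega) l
  have g1 := gq_mono hg0 hgg 2 (j + 1) (by linarith : 0 ≤ 1 - x) (by linarith : 1 - x ≤ 1 - a)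
  have g2 := gq_mono hg0 hgg 3 (j + 1) (by linarith : 0 ≤ 1 - x) (by linarith : 1 - x ≤ 1 - a)
  have g3 := gq_mono hg0 hgg 4 (j + 1) (by linarith : 0 ≤ 1 - x) (by linarith : 1 - x ≤ 1 - a)
  have g4 := gq_mono hg0 hgg 3 (j + 1) (by linarith : 0 ≤ 1 + x) (by linarith : 1 + x ≤ 1 + b)
  have g5 := gq_mono hg0 hgg 4 (j + 1) (by linarith : 0 ≤ 1 + x) (by linarith : 1 + x ≤ 1 + b)
  have p3 : (0:ℝ) < ((j:ℝ) + 2) * (j + 3) := by positivity
  have p4 : (0:ℝ) < ((j:ℝ) + 2) * (j + 3) * (j + 4) := by positivity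
  have p5 : (0:ℝ) < ((j:ℝ) + 2) * (j + 3) * (j + 4) * (j + 5) := by positivity
  have f1 := div_le_div_of_nonneg_right g1 p3.le
  have f2 := div_le_div_of_nonneg_right g2 p4.le
  have f3 := div_le_div_of_nonneg_right g3 p5.le
  have f4 := div_le_div_of_nonneg_right g4 p4.le
  have f5 := div_le_div_of_nonneg_right g5 p5.le
  have hK : (0:ℝ) ≤ (k.choose (j + 1) : ℝ) * M := mul_nonneg (Nat.cast_nonneg _) hM0
  calc _ ≤ (k.choose (j + 1) : ℝ) * M * (mm +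
      3 * (gq (gam d) 2 (j + 1) (1 - a) / ((j + 2) * (j + 3))) +
      6 * (gq (gam d) 3 (j + 1) (1 - a) / ((j + 2) * (j + 3) * (j + 4))) +
      9 / 2 * (gq (gam d) 4 (j + 1) (1 - a) / ((j + 2) * (j + 3) * (j + 4) * (j + 5))) +
      3 * (gq (gam d) 3 (j + 1) (1 + b) / ((j + 2) * (j + 3) * (j + 4))) +
      9 / 2 * (gq (gam d) 4 (j + 1) (1 + b) / ((j + 2) * (j + 3) * (j + 4) * (j + 5)))) :=
        mul_le_mul_of_nonneg_left (by linarith) hK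
    _ = ((k.choose (j + 1) : ℝ) * (mm +
      3 * (gq (gam d) 2 (j + 1) (1 - a) / ((j + 2) * (j + 3))) +
      6 * (gq (gam d) 3 (j + 1) (1 - a) / ((j + 2) * (j + 3) * (j + 4))) +
      9 / 2 * (gq (gam d) 4 (j + 1) (1 - a) / ((j + 2) * (j + 3) * (j + 4) * (j + 5))) +
      3 * (gq (gam d) 3 (j + 1) (1 + b) / ((j + 2) * (j + 3) * (j + 4))) +
      9 / 2 * (gq (gam d) 4 (j + 1) (1 + b) / ((j + 2) * (j + 3) * (j + 4) * (j + 5))))) * M := by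
        ring
    _ ≤ c * M := mul_le_mul_of_nonneg_right hc hM0

/-- Concave quadratics on an interval. -/
theorem quad_low {x a b c A B G : ℝ} (hax : a ≤ x) (hxb : x ≤ b) (hG : 0 ≤ G)
    (h1 : c ≤ A + B * a - G * a ^ 2) (h2 : c ≤ A + B * b - G * b ^ 2) :
    c ≤ A + B * x - G * x ^ 2 := by
  rcases eq_or_lt_of_le (hax.trans hxb) with h | h
  · have : x = a := le_antisymm (hxb.trans h.symm.le) hax
    rw [this]; exact h1
  · have key : (b - a) * (A + B * x - G * x ^ 2 - c) =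
        (b - x) * (A + B * a - G * a ^ 2 - c) + (x - a) * (A + B * b - G * b ^ 2 - c) +
          G * ((x - a) * (b - x) * (b - a)) := by ring
    have h3 : 0 ≤ (b - x) * (A + B * a - G * a ^ 2 - c) :=
      mul_nonneg (by linarith) (by linarith)
    have h4 : 0 ≤ (x - a) * (A + B * b - G * b ^ 2 - c) :=
      mul_nonneg (by linarith) (by linarith)
    have h5 : 0 ≤ G * ((x - a) * (b - x) * (b - a)) :=
      mul_nonneg hG (mul_nonneg (mul_nonneg (by linarith) (by linarith)) (by linarith))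
    have h6 : 0 ≤ (b - a) * (A + B * x - G * x ^ 2 - c) := by rw [key]; linarith
    have := nonneg_of_mul_nonneg_right h6 (by linarith)
    linarith

/-- The four lower bounds of `2E` used by `pw_gen`, as functions of `x`. -/
noncomputable def Ef (tp tm u x : ℝ) (i : ℕ) : ℝ :=
  if i = 1 then 2 * (2 * tp - 2 * x) - 2 - 2 * x -
      u * ((2 * tp - 2 * x) ^ 2 - 2 * (2 * tp - 2 * x)) - u ^ 2 * (2 * tp - 2 * x) ^ 2 / 2
  else if i = 2 then 2 * (2 * tm + 2 * x) - 2 * x - u * (2 * tm + 2 * x) ^ 2 -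
      u ^ 2 * (2 * tm + 2 * x) ^ 2 / 2
  else if i = 3 then 2 * (2 * tp - 2 * x) + 2 * x - u * (2 * tp - 2 * x) ^ 2 -
      u ^ 2 * (2 * tp - 2 * x) ^ 2 / 2
  else 2 * (2 * tm + 2 * x) - 2 + 2 * x -
      u * ((2 * tm + 2 * x) ^ 2 - 2 * (2 * tm + 2 * x)) - u ^ 2 * (2 * tm + 2 * x) ^ 2 / 2

theorem Ef_low {tp tm u a b x c : ℝ} (hax : a ≤ x) (hxb : x ≤ b) (hu : 0 ≤ u) {i : ℕ}
    (ha : c ≤ Ef tp tm u a i) (hb : c ≤ Ef tp tm u b i) : c ≤ Ef tp tm u x i := by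
  have hG : 0 ≤ 4 * u + 2 * u ^ 2 := by positivity
  unfold Ef at *
  split_ifs at * with h1 h2 h3
  · have := quad_low (A := 4 * tp - 2 - 4 * u * tp ^ 2 + 4 * u * tp - 2 * u ^ 2 * tp ^ 2)
      (B := -6 + 8 * u * tp - 4 * u + 4 * u ^ 2 * tp) (c := c) hax hxb hG (by linarith) (by linarith)
    linarith
  · have := quad_low (A := 4 * tm - 4 * u * tm ^ 2 - 2 * u ^ 2 * tm ^ 2)
      (B := 2 - 8 * u * tm - 4 * u ^ 2 * tm) (c := c) hax hxb hG (by linarith) (by linarith)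
    linarith
  · have := quad_low (A := 4 * tp - 4 * u * tp ^ 2 - 2 * u ^ 2 * tp ^ 2)
      (B := -2 + 8 * u * tp + 4 * u ^ 2 * tp) (c := c) hax hxb hG (by linarith) (by linarith)
    linarith
  · have := quad_low (A := 4 * tm - 2 - 4 * u * tm ^ 2 + 4 * u * tm - 2 * u ^ 2 * tm ^ 2)
      (B := 6 - 8 * u * tm + 4 * u - 4 * u ^ 2 * tm) (c := c) hax hxb hG (by linarith) (by linarith)
    linarith

/-- The piecewise constant certificate on `[a, b]`. -/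
theorem pw_cst {N k : ℕ} (hN : 1 ≤ N) (hk : 1 ≤ k) {L : Fin N → ℂ} (hL : ∀ a, ‖L a‖ ≤ 1)
    {x a b : ℝ} (ha0 : 0 ≤ a) (hax : a ≤ x) (hxb : x ≤ b) (hb1 : b < 1) {tp tm u0 : ℝ}
    (htp : tp ≤ ∑ a, (1 - (L a).re)) (htm : tm ≤ ∑ a, (1 + (L a).re)) (hu0 : 0 ≤ u0)
    (hu : 1 ≤ u0 * (2 * (N:ℝ))) (hq2 : 2 ≤ 2 * tp - 2 * b) (hp2 : 2 ≤ 2 * tm)
    {bb lam : ℕ → ℝ}
    (hb : ∀ M, IsM L k M → ∀ j, 1 ≤ j → j ≤ k → |hv L (k - j) x| ≤ bb j * M)
    (hb0 : ∀ j, 0 ≤ bb j) (hlam : ∀ j, 0 ≤ lam j) (hlam1 : lam 1 = 0)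
    (hEa : ∀ i, 1 ≤ i → i ≤ 4 → 2 * (bb 1 + 2 * lam 2) ≤ Ef tp tm u0 a i)
    (hEb : ∀ i, 1 ≤ i → i ≤ 4 → 2 * (bb 1 + 2 * lam 2) ≤ Ef tp tm u0 b i)
    (hbp : ∀ j : ℕ, 2 ≤ j → j ≤ k → bb j + (j + 1) * lam (j + 1) ≤
      lam j * (2 * tp - 1 - (2 * j + 1) * b) + j * (1 - b ^ 2) * lam (j - 1))
    (hbm : ∀ j : ℕ, 2 ≤ j → j ≤ k → bb j + (j + 1) * lam (j + 1) ≤
      lam j * (2 * tm - 1 + (j + 1) * a) + j * (1 - b ^ 2) * lam (j - 1)) : PW L k x := by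
  have hx0 : 0 ≤ x := by linarith
  have hx1 : x < 1 := by linarith
  have hE : ∀ i, 1 ≤ i → i ≤ 4 → 2 * (bb 1 + 2 * lam 2) ≤ Ef tp tm u0 x i := fun i h1 h4 =>
    Ef_low hax hxb hu0 (hEa i h1 h4) (hEb i h1 h4)
  have e1 := hE 1 (by norm_num) (by norm_num)
  have e2 := hE 2 (by norm_num) (by norm_num)
  have e3 := hE 3 (by norm_num) (by norm_num)
  have e4 := hE 4 (by norm_num) (by norm_num)
  have hsq : x ^ 2 ≤ b ^ 2 := pow_le_pow_left₀ hx0 hxb 2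
  have hδ : ∀ j : ℕ, (j:ℝ) * (1 - b ^ 2) * lam (j - 1) ≤ j * (1 - x ^ 2) * lam (j - 1) := fun j =>
    mul_le_mul_of_nonneg_right (mul_le_mul_of_nonneg_left (by linarith) (Nat.cast_nonneg _))
      (hlam _)
  refine Pool.Agent.HSmall.pw_gen hN hk hL hx0 hx1 htp htm hu (by linarith) (by linarith)
    hb hb0 hlam hlam1 ?_ ?_ ?_ ?_ ?_ ?_
  · simpa [Ef] using e1
  · simpa [Ef] using e2
  · simpa [Ef] using e3
  · simpa [Ef] using e4
  · intro j hj hjk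
    refine (hbp j hj hjk).trans (add_le_add (mul_le_mul_of_nonneg_left ?_ (hlam j)) (hδ j))
    have : (2 * (j:ℝ) + 1) * x ≤ (2 * j + 1) * b := mul_le_mul_of_nonneg_left hxb (by positivity)
    linarith
  · intro j hj hjk
    refine (hbm j hj hjk).trans (add_le_add (mul_le_mul_of_nonneg_left ?_ (hlam j)) (hδ j))
    have : ((j:ℝ) + 1) * a ≤ (j + 1) * x := mul_le_mul_of_nonneg_left hax (by positivity)
    linarith

end Pool.Agent.HTen
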