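import Mathlib

set_option autoImplicit false

namespace Pool.Agent.HTen

theorem quad1 {j k : ℝ} (hj : 5 ≤ j) (hjk : j ≤ k) (hk : 8 ≤ k) :
    j * (k - j + 1) ≤ 109 / 1000 * (k + 2 + j) * (2 * k - 1 / 2 - (2 * j + 1) * (1 / 4)) := by
  nlinarith [mul_nonneg (sub_nonneg.2 hj) (sub_nonneg.2 hjk), sq_nonneg (k - 2.2 * j),
    mul_nonneg (sub_nonneg.2 hj) (sub_nonneg.2 hj), mul_nonneg (sub_nonneg.2 hjk) (sub_nonneg.2 hk),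
    mul_nonneg (sub_nonneg.2 hj) (sub_nonneg.2 hk)]

theorem quad1m {j k : ℝ} (hj : 5 ≤ j) (hjk : j ≤ k) (hk : 8 ≤ k) :
    j * (k - j + 1) ≤ 109 / 1000 * (k + 2 + j) * (2 * k - 3 / 2) := by
  nlinarith [mul_nonneg (sub_nonneg.2 hj) (sub_nonneg.2 hjk), sq_nonneg (k - 2.2 * j),
    mul_nonneg (sub_nonneg.2 hj) (sub_nonneg.2 hj), mul_nonneg (sub_nonneg.2 hjk) (sub_nonneg.2 hk),
    mul_nonneg (sub_nonneg.2 hj) (sub_nonneg.2 hk)]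

theorem quad2 {j k : ℝ} (hj : 5 ≤ j) (hjk : j ≤ k) (hk : 8 ≤ k) :
    j * (k - j + 1) ≤ 17 / 125 * (k + 2 + j) * (2 * k - 1 / 2 - (2 * j + 1) * (1 / 2)) := by
  nlinarith [mul_nonneg (sub_nonneg.2 hj) (sub_nonneg.2 hjk), sq_nonneg (k - 2 * j),
    mul_nonneg (sub_nonneg.2 hj) (sub_nonneg.2 hj), mul_nonneg (sub_nonneg.2 hjk) (sub_nonneg.2 hk),
    mul_nonneg (sub_nonneg.2 hj) (sub_nonneg.2 hk)]

theorem quad3 {j k : ℝ} (hj : 5 ≤ j) (hjk : j ≤ k) (hk : 8 ≤ k) :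
    j * (k - j + 1) ≤ 153 / 1000 * (k + 2 + j) * (2 * k - 1 / 2 - (2 * j + 1) * (3 / 5)) := by
  nlinarith [mul_nonneg (sub_nonneg.2 hj) (sub_nonneg.2 hjk), sq_nonneg (k - 1.8 * j),
    mul_nonneg (sub_nonneg.2 hj) (sub_nonneg.2 hj), mul_nonneg (sub_nonneg.2 hjk) (sub_nonneg.2 hk),
    mul_nonneg (sub_nonneg.2 hj) (sub_nonneg.2 hk)]

theorem quad4 {j k : ℝ} (hj : 5 ≤ j) (hjk : j ≤ k) (hk : 8 ≤ k) :
    j * (k - j + 1) ≤ 9 / 50 * (k + 2 + j) * (2 * k - 1 / 2 - (2 * j + 1) * (7 / 10)) := by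
  nlinarith [mul_nonneg (sub_nonneg.2 hj) (sub_nonneg.2 hjk), sq_nonneg (k - 1.7 * j),
    mul_nonneg (sub_nonneg.2 hj) (sub_nonneg.2 hj), mul_nonneg (sub_nonneg.2 hjk) (sub_nonneg.2 hk),
    mul_nonneg (sub_nonneg.2 hj) (sub_nonneg.2 hk)]

end Pool.Agent.HTen
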