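import Pool.Agent.HTen.Bnd
import Pool.Agent.HTen.Quad

set_option autoImplicit false

namespace Pool.Agent.HTen

open Finset Polynomial Pool.Agent.HStar Pool.Agent.HFin Pool.Agent.HSixP1

theorem mj_1_1 {x : ℝ} (h0 : 0 ≤ x) (h1 : x ≤ 1 / 4) : mj 1 x ≤ 3 / 8 := by
  obtain ⟨y, rfl⟩ : ∃ y, x = 0 + y := ⟨x - (0), by ring⟩
  have y0 : 0 ≤ y := by linarith
  have y1 : y ≤ 1 / 4 := by linarith
  have P : ∀ i : ℕ, 0 ≤ y ^ i ∧ y ^ (i + 1) ≤ 1 / 4 * y ^ i := by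
    intro i
    have hi := pow_nonneg y0 i
    refine ⟨hi, ?_⟩
    rw [pow_succ, mul_comm]
    exact mul_le_mul_of_nonneg_right y1 hi
  have e : 3 / 8 - mj 1 (0 + y) = (3/8) * y ^ 1 + (-3/4) * y ^ 2 + (-1/4) * y ^ 3 + (1/8) * y ^ 4 + (3/40) * y ^ 5 := by
    unfold mj WW
    push_cast
    ring
  have q1 := P 1
  have q2 := P 2
  have q3 := P 3
  have q4 := P 4
  have q5 := P 5
  norm_num at q1 q2 q3 q4 q5
  linarith [q1.1, q1.2, q2.1, q2.2, q3.1, q3.2, q4.1, q4.2, q5.1, q5.2]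

theorem mj_1_2 {x : ℝ} (h0 : 0 ≤ x) (h1 : x ≤ 1 / 4) : mj 2 x ≤ 1 / 5 := by
  obtain ⟨y, rfl⟩ : ∃ y, x = 0 + y := ⟨x - (0), by ring⟩
  have y0 : 0 ≤ y := by linarith
  have y1 : y ≤ 1 / 4 := by linarith
  have P : ∀ i : ℕ, 0 ≤ y ^ i ∧ y ^ (i + 1) ≤ 1 / 4 * y ^ i := by
    intro i
    have hi := pow_nonneg y0 i
    refine ⟨hi, ?_⟩
    rw [pow_succ, mul_comm]
    exact mul_le_mul_of_nonneg_right y1 hi
  have e : 1 / 5 - mj 2 (0 + y) = (2/5) * y ^ 1 + (-1) * y ^ 2 := by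
    unfold mj WW
    push_cast
    ring
  have q1 := P 1
  have q2 := P 2
  norm_num at q1 q2
  linarith [q1.1, q1.2, q2.1, q2.2]

theorem mj_1_3 {x : ℝ} (h0 : 0 ≤ x) (h1 : x ≤ 1 / 4) : mj 3 x ≤ 1 / 8 := by
  obtain ⟨y, rfl⟩ : ∃ y, x = 0 + y := ⟨x - (0), by ring⟩
  have y0 : 0 ≤ y := by linarith
  have y1 : y ≤ 1 / 4 := by linarith
  have P : ∀ i : ℕ, 0 ≤ y ^ i ∧ y ^ (i + 1) ≤ 1 / 4 * y ^ i := by
    intro i
    have hi := pow_nonneg y0 i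
    refine ⟨hi, ?_⟩
    rw [pow_succ, mul_comm]
    exact mul_le_mul_of_nonneg_right y1 hi
  have e : 1 / 8 - mj 3 (0 + y) = (3/8) * y ^ 1 + (-9/8) * y ^ 2 + (3/8) * y ^ 3 + (-3/8) * y ^ 4 + (-3/40) * y ^ 5 + (1/40) * y ^ 6 + (3/280) * y ^ 7 := by
    unfold mj WW
    push_cast
    ring
  have q1 := P 1
  have q2 := P 2
  have q3 := P 3
  have q4 := P 4
  have q5 := P 5
  have q6 := P 6
  have q7 := P 7
  norm_num at q1 q2 q3 q4 q5 q6 q7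
  linarith [q1.1, q1.2, q2.1, q2.2, q3.1, q3.2, q4.1, q4.2, q5.1, q5.2, q6.1, q6.2, q7.1, q7.2]

theorem mj_1_4 {x : ℝ} (h0 : 0 ≤ x) (h1 : x ≤ 1 / 4) : mj 4 x ≤ 429 / 5000 := by
  obtain ⟨y, rfl⟩ : ∃ y, x = 0 + y := ⟨x - (0), by ring⟩
  have y0 : 0 ≤ y := by linarith
  have y1 : y ≤ 1 / 4 := by linarith
  have P : ∀ i : ℕ, 0 ≤ y ^ i ∧ y ^ (i + 1) ≤ 1 / 4 * y ^ i := by
    intro i
    have hi := pow_nonneg y0 i
    refine ⟨hi, ?_⟩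
    rw [pow_succ, mul_comm]
    exact mul_le_mul_of_nonneg_right y1 hi
  have e : 429 / 5000 - mj 4 (0 + y) = (3/35000) + (12/35) * y ^ 1 + (-6/5) * y ^ 2 + (4/5) * y ^ 3 + (-1) * y ^ 4 := by
    unfold mj WW
    push_cast
    ring
  have q1 := P 1
  have q2 := P 2
  have q3 := P 3
  have q4 := P 4
  norm_num at q1 q2 q3 q4
  linarith [q1.1, q1.2, q2.1, q2.2, q3.1, q3.2, q4.1, q4.2]

theorem mj_2_1 {x : ℝ} (h0 : 1 / 4 ≤ x) (h1 : x ≤ 1 / 2) : mj 1 x ≤ 3971 / 10000 := by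
  obtain ⟨y, rfl⟩ : ∃ y, x = 1 / 4 + y := ⟨x - (1 / 4), by ring⟩
  have y0 : 0 ≤ y := by linarith
  have y1 : y ≤ 1 / 4 := by linarith
  have P : ∀ i : ℕ, 0 ≤ y ^ i ∧ y ^ (i + 1) ≤ 1 / 4 * y ^ i := by
    intro i
    have hi := pow_nonneg y0 i
    refine ⟨hi, ?_⟩
    rw [pow_succ, mul_comm]
    exact mul_le_mul_of_nonneg_right y1 hi
  have e : 3971 / 10000 - mj 1 (1 / 4 + y) = (336027/5120000) + (-77/2048) * y ^ 1 + (-225/256) * y ^ 2 + (-5/64) * y ^ 3 + (7/32) * y ^ 4 + (3/40) * y ^ 5 := by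
    unfold mj WW
    push_cast
    ring
  have q1 := P 1
  have q2 := P 2
  have q3 := P 3
  have q4 := P 4
  have q5 := P 5
  norm_num at q1 q2 q3 q4 q5
  linarith [q1.1, q1.2, q2.1, q2.2, q3.1, q3.2, q4.1, q4.2, q5.1, q5.2]

theorem mj_2_2 {x : ℝ} (h0 : 1 / 4 ≤ x) (h1 : x ≤ 1 / 2) : mj 2 x ≤ 1 / 4 := by
  obtain ⟨y, rfl⟩ : ∃ y, x = 1 / 4 + y := ⟨x - (1 / 4), by ring⟩
  have y0 : 0 ≤ y := by linarith
  have y1 : y ≤ 1 / 4 := by linarith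
  have P : ∀ i : ℕ, 0 ≤ y ^ i ∧ y ^ (i + 1) ≤ 1 / 4 * y ^ i := by
    intro i
    have hi := pow_nonneg y0 i
    refine ⟨hi, ?_⟩
    rw [pow_succ, mul_comm]
    exact mul_le_mul_of_nonneg_right y1 hi
  have e : 1 / 4 - mj 2 (1 / 4 + y) = (7/80) + (-1/10) * y ^ 1 + (-1) * y ^ 2 := by
    unfold mj WW
    push_cast
    ring
  have q1 := P 1
  have q2 := P 2
  norm_num at q1 q2
  linarith [q1.1, q1.2, q2.1, q2.2]

theorem mj_2_3 {x : ℝ} (h0 : 1 / 4 ≤ x) (h1 : x ≤ 1 / 2) : mj 3 x ≤ 493 / 2500 := by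
  obtain ⟨y, rfl⟩ : ∃ y, x = 1 / 4 + y := ⟨x - (1 / 4), by ring⟩
  have y0 : 0 ≤ y := by linarith
  have y1 : y ≤ 1 / 4 := by linarith
  have P : ∀ i : ℕ, 0 ≤ y ^ i ∧ y ^ (i + 1) ≤ 1 / 4 * y ^ i := by
    intro i
    have hi := pow_nonneg y0 i
    refine ⟨hi, ?_⟩
    rw [pow_succ, mul_comm]
    exact mul_le_mul_of_nonneg_right y1 hi
  have e : 493 / 2500 - mj 3 (1 / 4 + y) = (57324243/573440000) + (-23253/163840) * y ^ 1 + (-40731/40960) * y ^ 2 + (-77/2048) * y ^ 3 + (-225/512) * y ^ 4 + (-3/128) * y ^ 5 + (7/160) * y ^ 6 + (3/280) * y ^ 7 := by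
    unfold mj WW
    push_cast
    ring
  have q1 := P 1
  have q2 := P 2
  have q3 := P 3
  have q4 := P 4
  have q5 := P 5
  have q6 := P 6
  have q7 := P 7
  norm_num at q1 q2 q3 q4 q5 q6 q7
  linarith [q1.1, q1.2, q2.1, q2.2, q3.1, q3.2, q4.1, q4.2, q5.1, q5.2, q6.1, q6.2, q7.1, q7.2]

theorem mj_2_4 {x : ℝ} (h0 : 1 / 4 ≤ x) (h1 : x ≤ 1 / 2) : mj 4 x ≤ 221 / 1250 := by
  obtain ⟨y, rfl⟩ : ∃ y, x = 1 / 4 + y := ⟨x - (1 / 4), by ring⟩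
  have y0 : 0 ≤ y := by linarith
  have y1 : y ≤ 1 / 4 := by linarith
  have P : ∀ i : ℕ, 0 ≤ y ^ i ∧ y ^ (i + 1) ≤ 1 / 4 * y ^ i := by
    intro i
    have hi := pow_nonneg y0 i
    refine ⟨hi, ?_⟩
    rw [pow_succ, mul_comm]
    exact mul_le_mul_of_nonneg_right y1 hi
  have e : 221 / 1250 - mj 4 (1 / 4 + y) = (17663/160000) + (-19/112) * y ^ 1 + (-39/40) * y ^ 2 + (-1/5) * y ^ 3 + (-1) * y ^ 4 := by
    unfold mj WW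
    push_cast
    ring
  have q1 := P 1
  have q2 := P 2
  have q3 := P 3
  have q4 := P 4
  norm_num at q1 q2 q3 q4
  linarith [q1.1, q1.2, q2.1, q2.2, q3.1, q3.2, q4.1, q4.2]

theorem mj_3_1 {x : ℝ} (h0 : 1 / 2 ≤ x) (h1 : x ≤ 3 / 5) : mj 1 x ≤ 2261 / 5000 := by
  obtain ⟨y, rfl⟩ : ∃ y, x = 1 / 2 + y := ⟨x - (1 / 2), by ring⟩
  have y0 : 0 ≤ y := by linarith
  have y1 : y ≤ 1 / 10 := by linarith
  have P : ∀ i : ℕ, 0 ≤ y ^ i ∧ y ^ (i + 1) ≤ 1 / 10 * y ^ i := by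
    intro i
    have hi := pow_nonneg y0 i
    refine ⟨hi, ?_⟩
    rw [pow_succ, mul_comm]
    exact mul_le_mul_of_nonneg_right y1 hi
  have e : 2261 / 5000 - mj 1 (1 / 2 + y) = (8977/160000) + (-61/128) * y ^ 1 + (-27/32) * y ^ 2 + (3/16) * y ^ 3 + (5/16) * y ^ 4 + (3/40) * y ^ 5 := by
    unfold mj WW
    push_cast
    ring
  have q1 := P 1
  have q2 := P 2
  have q3 := P 3
  have q4 := P 4
  have q5 := P 5
  norm_num at q1 q2 q3 q4 q5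
  linarith [q1.1, q1.2, q2.1, q2.2, q3.1, q3.2, q4.1, q4.2, q5.1, q5.2]

theorem mj_3_2 {x : ℝ} (h0 : 1 / 2 ≤ x) (h1 : x ≤ 3 / 5) : mj 2 x ≤ 8 / 25 := by
  obtain ⟨y, rfl⟩ : ∃ y, x = 1 / 2 + y := ⟨x - (1 / 2), by ring⟩
  have y0 : 0 ≤ y := by linarith
  have y1 : y ≤ 1 / 10 := by linarith
  have P : ∀ i : ℕ, 0 ≤ y ^ i ∧ y ^ (i + 1) ≤ 1 / 10 * y ^ i := by
    intro i
    have hi := pow_nonneg y0 i
    refine ⟨hi, ?_⟩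
    rw [pow_succ, mul_comm]
    exact mul_le_mul_of_nonneg_right y1 hi
  have e : 8 / 25 - mj 2 (1 / 2 + y) = (7/100) + (-3/5) * y ^ 1 + (-1) * y ^ 2 := by
    unfold mj WW
    push_cast
    ring
  have q1 := P 1
  have q2 := P 2
  norm_num at q1 q2
  linarith [q1.1, q1.2, q2.1, q2.2]

theorem mj_4_1 {x : ℝ} (h0 : 3 / 5 ≤ x) (h1 : x ≤ 7 / 10) : mj 1 x ≤ 1047 / 2000 := by
  obtain ⟨y, rfl⟩ : ∃ y, x = 3 / 5 + y := ⟨x - (3 / 5), by ring⟩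
  have y0 : 0 ≤ y := by linarith
  have y1 : y ≤ 1 / 10 := by linarith
  have P : ∀ i : ℕ, 0 ≤ y ^ i ∧ y ^ (i + 1) ≤ 1 / 10 * y ^ i := by
    intro i
    have hi := pow_nonneg y0 i
    refine ⟨hi, ?_⟩
    rw [pow_succ, mul_comm]
    exact mul_le_mul_of_nonneg_right y1 hi
  have e : 1047 / 2000 - mj 1 (3 / 5 + y) = (17883/250000) + (-399/625) * y ^ 1 + (-96/125) * y ^ 2 + (8/25) * y ^ 3 + (7/20) * y ^ 4 + (3/40) * y ^ 5 := by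
    unfold mj WW
    push_cast
    ring
  have q1 := P 1
  have q2 := P 2
  have q3 := P 3
  have q4 := P 4
  have q5 := P 5
  norm_num at q1 q2 q3 q4 q5
  linarith [q1.1, q1.2, q2.1, q2.2, q3.1, q3.2, q4.1, q4.2, q5.1, q5.2]

end Pool.Agent.HTen
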