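import Pool.Agent.HTen.Pw
import Pool.Agent.HTen.Poly

set_option autoImplicit false

namespace Pool.Agent.HTen

open Finset Polynomial Pool.Agent.HStar Pool.Agent.HFin Pool.Agent.HSixP1

theorem pw_int1 {N k : ℕ} (hk8 : 8 ≤ k) (hkN : k + 1 ≤ N) {L : Fin N → ℂ} (hL : ∀ a, ‖L a‖ ≤ 1)
    {x : ℝ} (hax : 0 ≤ x) (hxb : x ≤ 1 / 4)
    (htp : (k:ℝ) + 1 / 4 ≤ ∑ a, (1 - (L a).re)) (htm : (k:ℝ) - 1 / 4 ≤ ∑ a, (1 + (L a).re)) :
    PW L k x := by
  have hx1 : x < 1 := by linarith
  refine pw_of_c hk8 hkN hL (by linarith) hx1 htp htm (a := 0) (b := 1 / 4) (c1 := 99 / 250) (c2 := 263 / 1000)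
    (c3 := 269 / 1000) (c4 := 97 / 250) (Q2 := 1 / 2) (Q3 := 1 / 2) (Q4 := 1 / 2) (K := 1 / 2) (κ := 1 / 2)
    (φ := 109 / 1000) (α := 206 / 125) (β := 243 / 500) (e := 1) (s4 := 1) (t4 := 2219 / 1000) (Cb := 17 / 50)
    (by norm_num) hax hxb (by norm_num) (by norm_num) (by norm_num) (by norm_num) (by norm_num)
    (by norm_num) (by norm_num) (by norm_num) (by norm_num) (by norm_num) (by norm_num)
    (by norm_num) (by norm_num) ?_ ?_ ?_ ?_ ?_ ?_ ?_ ?_ ?_ ?_ ?_ ?_ (by norm_num) ?_ ?_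
    (by norm_num) (by norm_num) (by norm_num) ?_ (by norm_num) (by norm_num) (by norm_num) ?_
  · intro M hM
    exact c_T3 (j := 0) hL hk8 hkN (by norm_num) hax hxb hx1.le hM (by omega)
      (mj_1_1 hax hxb) (by norm_num [gq, gam, Finset.sum_range_succ, Nat.choose])
  · intro M hM
    exact c_T3 (j := 1) hL hk8 hkN (by norm_num) hax hxb hx1.le hM (by omega)
      (mj_1_2 hax hxb) (by norm_num [gq, gam, Finset.sum_range_succ, Nat.choose])
  · intro M hM
    exact c_T3 (j := 2) hL hk8 hkN (by norm_num) hax hxb hx1.le hM (by omega)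
      (mj_1_3 hax hxb) (by norm_num [gq, gam, Finset.sum_range_succ, Nat.choose])
  · intro M hM
    exact c_T3 (j := 3) hL hk8 hkN (by norm_num) hax hxb hx1.le hM (by omega)
      (mj_1_4 hax hxb) (by norm_num [gq, gam, Finset.sum_range_succ, Nat.choose])
  · intro r hr; linarith
  · intro r hr; linarith
  · intro r hr; linarith
  · intro r hr; linarith
  · intro r hr; linarith
  · intro r hr; linarith
  · intro r j hr hj hjr; nlinarith
  · intro r j hr hj hjr; nlinarith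
  · intro r j hr hj hjr; exact quad1 hj hjr hr
  · intro r j hr hj hjr; exact quad1m hj hjr hr
  · norm_num [tt, gam, Finset.sum_range_succ, Nat.choose]
  · intro r hr; linarith

theorem pw_int2 {N k : ℕ} (hk8 : 8 ≤ k) (hkN : k + 1 ≤ N) {L : Fin N → ℂ} (hL : ∀ a, ‖L a‖ ≤ 1)
    {x : ℝ} (hax : 1 / 4 ≤ x) (hxb : x ≤ 1 / 2)
    (htp : (k:ℝ) + 1 / 4 ≤ ∑ a, (1 - (L a).re)) (htm : (k:ℝ) - 1 / 4 ≤ ∑ a, (1 + (L a).re)) :
    PW L k x := by
  have hx1 : x < 1 := by linarith
  refine pw_of_c hk8 hkN hL (by linarith) hx1 htp htm (a := 1 / 4) (b := 1 / 2) (c1 := 209 / 500) (c2 := 61 / 200)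
    (c3 := 311 / 1000) (c4 := 81 / 200) (Q2 := 539 / 1000) (Q3 := 1 / 2) (Q4 := 1 / 2) (K := 1 / 2) (κ := 3 / 8)
    (φ := 17 / 125) (α := 162 / 125) (β := 299 / 500) (e := 1) (s4 := 633 / 2000) (t4 := 116 / 125) (Cb := 62 / 125)
    (by norm_num) hax hxb (by norm_num) (by norm_num) (by norm_num) (by norm_num) (by norm_num)
    (by norm_num) (by norm_num) (by norm_num) (by norm_num) (by norm_num) (by norm_num)
    (by norm_num) (by norm_num) ?_ ?_ ?_ ?_ ?_ ?_ ?_ ?_ ?_ ?_ ?_ ?_ (by norm_num) ?_ ?_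
    (by norm_num) (by norm_num) (by norm_num) ?_ (by norm_num) (by norm_num) (by norm_num) ?_
  · intro M hM
    exact c_T3 (j := 0) hL hk8 hkN (by norm_num) hax hxb hx1.le hM (by omega)
      (mj_2_1 hax hxb) (by norm_num [gq, gam, Finset.sum_range_succ, Nat.choose])
  · intro M hM
    exact c_T3 (j := 1) hL hk8 hkN (by norm_num) hax hxb hx1.le hM (by omega)
      (mj_2_2 hax hxb) (by norm_num [gq, gam, Finset.sum_range_succ, Nat.choose])
  · intro M hM
    exact c_T3 (j := 2) hL hk8 hkN (by norm_num) hax hxb hx1.le hM (by omega)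
      (mj_2_3 hax hxb) (by norm_num [gq, gam, Finset.sum_range_succ, Nat.choose])
  · intro M hM
    exact c_T3 (j := 3) hL hk8 hkN (by norm_num) hax hxb hx1.le hM (by omega)
      (mj_2_4 hax hxb) (by norm_num [gq, gam, Finset.sum_range_succ, Nat.choose])
  · intro r hr; linarith
  · intro r hr; linarith
  · intro r hr; linarith
  · intro r hr; linarith
  · intro r hr; linarith
  · intro r hr; linarith
  · intro r j hr hj hjr; nlinarith
  · intro r j hr hj hjr; nlinarith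
  · intro r j hr hj hjr; exact quad2 hj hjr hr
  · intro r j hr hj hjr; exact (quad1m hj hjr hr).trans (by nlinarith)
  · norm_num [tt, gam, Finset.sum_range_succ, Nat.choose]
  · intro r hr; linarith

theorem pw_int3 {N k : ℕ} (hk8 : 8 ≤ k) (hkN : k + 1 ≤ N) {L : Fin N → ℂ} (hL : ∀ a, ‖L a‖ ≤ 1)
    {x : ℝ} (hax : 1 / 2 ≤ x) (hxb : x ≤ 3 / 5)
    (htp : (k:ℝ) + 1 / 4 ≤ ∑ a, (1 - (L a).re)) (htm : (k:ℝ) - 1 / 4 ≤ ∑ a, (1 + (L a).re)) :
    PW L k x := by
  have hx1 : x < 1 := by linarith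
  refine pw_of_c hk8 hkN hL (by linarith) hx1 htp htm (a := 1 / 2) (b := 3 / 5) (c1 := 473 / 1000) (c2 := 183 / 500)
    (c3 := 381 / 1000) (c4 := 317 / 1000) (Q2 := 14 / 25) (Q3 := 531 / 1000) (Q4 := 1 / 2) (K := 1 / 2) (κ := 1 / 4)
    (φ := 153 / 1000) (α := 199 / 200) (β := 31 / 50) (e := 983 / 1000) (s4 := 1 / 16) (t4 := 317 / 1000) (Cb := 567 / 1000)
    (by norm_num) hax hxb (by norm_num) (by norm_num) (by norm_num) (by norm_num) (by norm_num)
    (by norm_num) (by norm_num) (by norm_num) (by norm_num) (by norm_num) (by norm_num)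
    (by norm_num) (by norm_num) ?_ ?_ ?_ ?_ ?_ ?_ ?_ ?_ ?_ ?_ ?_ ?_ (by norm_num) ?_ ?_
    (by norm_num) (by norm_num) (by norm_num) ?_ (by norm_num) (by norm_num) (by norm_num) ?_
  · intro M hM
    exact c_T3 (j := 0) hL hk8 hkN (by norm_num) hax hxb hx1.le hM (by omega)
      (mj_3_1 hax hxb) (by norm_num [gq, gam, Finset.sum_range_succ, Nat.choose])
  · intro M hM
    exact c_T3 (j := 1) hL hk8 hkN (by norm_num) hax hxb hx1.le hM (by omega)
      (mj_3_2 hax hxb) (by norm_num [gq, gam, Finset.sum_range_succ, Nat.choose])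
  · intro M hM
    exact c_T1 hL hk8 hkN (by norm_num) hax hx1.le hM (by omega)
      (by norm_num [tt, gam, Finset.sum_range_succ, Nat.choose])
  · intro M hM
    exact c_T1 hL hk8 hkN (by norm_num) hax hx1.le hM (by omega)
      (by norm_num [tt, gam, Finset.sum_range_succ, Nat.choose])
  · intro r hr; linarith
  · intro r hr; linarith
  · intro r hr; linarith
  · intro r hr; linarith
  · intro r hr; linarith
  · intro r hr; linarith
  · intro r j hr hj hjr; nlinarith
  · intro r j hr hj hjr; nlinarith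
  · intro r j hr hj hjr; exact quad3 hj hjr hr
  · intro r j hr hj hjr; exact (quad1m hj hjr hr).trans (by nlinarith)
  · norm_num [tt, gam, Finset.sum_range_succ, Nat.choose]
  · intro r hr; linarith

theorem pw_int4 {N k : ℕ} (hk8 : 8 ≤ k) (hkN : k + 1 ≤ N) {L : Fin N → ℂ} (hL : ∀ a, ‖L a‖ ≤ 1)
    {x : ℝ} (hax : 3 / 5 ≤ x) (hxb : x ≤ 7 / 10)
    (htp : (k:ℝ) + 1 / 4 ≤ ∑ a, (1 - (L a).re)) (htm : (k:ℝ) - 1 / 4 ≤ ∑ a, (1 + (L a).re)) :
    PW L k x := by
  have hx1 : x < 1 := by linarith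
  refine pw_of_c hk8 hkN hL (by linarith) hx1 htp htm (a := 3 / 5) (b := 7 / 10) (c1 := 109 / 200) (c2 := 367 / 1000)
    (c3 := 63 / 250) (c4 := 24 / 125) (Q2 := 73 / 125) (Q3 := 567 / 1000) (Q4 := 68 / 125) (K := 513 / 1000) (κ := 103 / 500)
    (φ := 9 / 50) (α := 529 / 500) (β := 761 / 1000) (e := 483 / 500) (s4 := 16 / 625) (t4 := 24 / 125) (Cb := 321 / 500)
    (by norm_num) hax hxb (by norm_num) (by norm_num) (by norm_num) (by norm_num) (by norm_num)
    (by norm_num) (by norm_num) (by norm_num) (by norm_num) (by norm_num) (by norm_num)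
    (by norm_num) (by norm_num) ?_ ?_ ?_ ?_ ?_ ?_ ?_ ?_ ?_ ?_ ?_ ?_ (by norm_num) ?_ ?_
    (by norm_num) (by norm_num) (by norm_num) ?_ (by norm_num) (by norm_num) (by norm_num) ?_
  · intro M hM
    exact c_T3 (j := 0) hL hk8 hkN (by norm_num) hax hxb hx1.le hM (by omega)
      (mj_4_1 hax hxb) (by norm_num [gq, gam, Finset.sum_range_succ, Nat.choose])
  · intro M hM
    exact c_T1 hL hk8 hkN (by norm_num) hax hx1.le hM (by omega)
      (by norm_num [tt, gam, Finset.sum_range_succ, Nat.choose])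
  · intro M hM
    exact c_T1 hL hk8 hkN (by norm_num) hax hx1.le hM (by omega)
      (by norm_num [tt, gam, Finset.sum_range_succ, Nat.choose])
  · intro M hM
    exact c_T1 hL hk8 hkN (by norm_num) hax hx1.le hM (by omega)
      (by norm_num [tt, gam, Finset.sum_range_succ, Nat.choose])
  · intro r hr; linarith
  · intro r hr; linarith
  · intro r hr; linarith
  · intro r hr; linarith
  · intro r hr; linarith
  · intro r hr; linarith
  · intro r j hr hj hjr; nlinarith
  · intro r j hr hj hjr; nlinarith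
  · intro r j hr hj hjr; exact quad4 hj hjr hr
  · intro r j hr hj hjr; exact (quad1m hj hjr hr).trans (by nlinarith)
  · norm_num [tt, gam, Finset.sum_range_succ, Nat.choose]
  · intro r hr; linarith

end Pool.Agent.HTen
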