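import Pool.Agent.HTen.Cst

/-!
# Order `6` on `[0, 7/10]`
-/

set_option autoImplicit false

namespace Pool.Agent.HTen

open Finset Polynomial Pool.Agent.HStar Pool.Agent.HFin Pool.Agent.HSixP1

theorem mj6_1_1 {x : ℝ} (h0 : 0 ≤ x) (h1 : x ≤ 1 / 4) : mj 1 x ≤ 3 / 8 := by
  obtain ⟨y, rfl⟩ : ∃ y, x = 0 + y := ⟨x - (0), by ring⟩
  have y0 : 0 ≤ y := by linarith
  have y1 : y ≤ 1 / 4 := by linarith
  have P : ∀ i : ℕ, 0 ≤ y ^ i ∧ y ^ (i + 1) ≤ 1 / 4 * y ^ i := by
    intro i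
    have hi := pow_nonneg y0 i
    refine ⟨hi, ?_⟩
    rw [pow_succ, mul_comm]
    exact mul_le_mul_of_nonneg_right y1 hi
  have e : 3 / 8 - mj 1 (0 + y) = (3/8) * y ^ 1 + (-3/4) * y ^ 2 + (-1/4) * y ^ 3 + (1/8) * y ^ 4 + (3/40) * y ^ 5 := by
    unfold mj WW
    push_cast
    ring
  have q1 := P 1
  have q2 := P 2
  have q3 := P 3
  have q4 := P 4
  have q5 := P 5
  norm_num at q1 q2 q3 q4 q5
  linarith [q1.1, q1.2, q2.1, q2.2, q3.1, q3.2, q4.1, q4.2, q5.1, q5.2]

theorem mj6_1_2 {x : ℝ} (h0 : 0 ≤ x) (h1 : x ≤ 1 / 4) : mj 2 x ≤ 1 / 5 := by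
  obtain ⟨y, rfl⟩ : ∃ y, x = 0 + y := ⟨x - (0), by ring⟩
  have y0 : 0 ≤ y := by linarith
  have y1 : y ≤ 1 / 4 := by linarith
  have P : ∀ i : ℕ, 0 ≤ y ^ i ∧ y ^ (i + 1) ≤ 1 / 4 * y ^ i := by
    intro i
    have hi := pow_nonneg y0 i
    refine ⟨hi, ?_⟩
    rw [pow_succ, mul_comm]
    exact mul_le_mul_of_nonneg_right y1 hi
  have e : 1 / 5 - mj 2 (0 + y) = (2/5) * y ^ 1 + (-1) * y ^ 2 := by
    unfold mj WW
    push_cast
    ring
  have q1 := P 1
  have q2 := P 2
  norm_num at q1 q2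
  linarith [q1.1, q1.2, q2.1, q2.2]

theorem pw6_1 {N : ℕ} (hN : 7 ≤ N) {L : Fin N → ℂ} (hL : ∀ a, ‖L a‖ ≤ 1)
    {x : ℝ} (hax : 0 ≤ x) (hxb : x ≤ 1 / 4)
    (htp : 25 / 4 ≤ ∑ a, (1 - (L a).re)) (htm : 23 / 4 ≤ ∑ a, (1 + (L a).re)) :
    PW L 6 x := by
  have hx1 : x < 1 := by linarith
  have hNr : (7:ℝ) ≤ N := by exact_mod_cast hN
  refine pw_cst (by omega) (by norm_num) hL (a := 0) (b := 1 / 4) (tp := 25 / 4) (tm := 23 / 4) (u0 := 1 / 14)
    (bb := fun j => if j = 1 then 2481 / 1000 else if j = 2 then 963 / 200 else if j = 3 then 991 / 25 else if j = 4 then 15891 / 400 else if j = 5 then 22029 / 1000 else if j = 6 then 1323 / 250 else 0)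
    (lam := fun j => if j = 2 then 463 / 250 else if j = 3 then 1889 / 400 else if j = 4 then 2903 / 1000 else if j = 5 then 1933 / 2000 else if j = 6 then 11 / 2000 else 0)
    (by norm_num) hax hxb (by norm_num) htp htm (by norm_num) (by linarith) (by norm_num) (by norm_num)
    ?_ ?_ ?_ (by norm_num) ?_ ?_ ?_ ?_
  · intro M hM j hj hjk
    interval_cases j
    · refine d_T3 (j := 0) (d := 8) hL (by omega) (by norm_num) hax hxb hx1.le hM (by omega)
        (mj6_1_1 hax hxb) ?_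
      norm_num [gq, gam, Finset.sum_range_succ, Nat.choose]
    · refine d_T3 (j := 1) (d := 8) hL (by omega) (by norm_num) hax hxb hx1.le hM (by omega)
        (mj6_1_2 hax hxb) ?_
      norm_num [gq, gam, Finset.sum_range_succ, Nat.choose]
    · refine d_T1 (j := 3) (d := 8) hL (by omega) (by norm_num) hax hx1.le hM (by omega) ?_
      norm_num [tt, gam, Finset.sum_range_succ, Nat.choose]
    · refine d_T1 (j := 4) (d := 8) hL (by omega) (by norm_num) hax hx1.le hM (by omega) ?_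
      norm_num [tt, gam, Finset.sum_range_succ, Nat.choose]
    · refine d_T1 (j := 5) (d := 8) hL (by omega) (by norm_num) hax hx1.le hM (by omega) ?_
      norm_num [tt, gam, Finset.sum_range_succ, Nat.choose]
    · refine d_T1 (j := 6) (d := 8) hL (by omega) (by norm_num) hax hx1.le hM (by omega) ?_
      norm_num [tt, gam, Finset.sum_range_succ, Nat.choose]
  · intro j
    split_ifs <;> norm_num
  · intro j
    split_ifs <;> norm_num
  · intro i hi hi4
    interval_cases i <;> norm_num [Ef]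
  · intro i hi hi4
    interval_cases i <;> norm_num [Ef]
  · intro j hj hjk
    interval_cases j <;> norm_num
  · intro j hj hjk
    interval_cases j <;> norm_num

theorem mj6_2_1 {x : ℝ} (h0 : 1 / 4 ≤ x) (h1 : x ≤ 1 / 2) : mj 1 x ≤ 3971 / 10000 := by
  obtain ⟨y, rfl⟩ : ∃ y, x = 1 / 4 + y := ⟨x - (1 / 4), by ring⟩
  have y0 : 0 ≤ y := by linarith
  have y1 : y ≤ 1 / 4 := by linarith
  have P : ∀ i : ℕ, 0 ≤ y ^ i ∧ y ^ (i + 1) ≤ 1 / 4 * y ^ i := by
    intro i
    have hi := pow_nonneg y0 i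
    refine ⟨hi, ?_⟩
    rw [pow_succ, mul_comm]
    exact mul_le_mul_of_nonneg_right y1 hi
  have e : 3971 / 10000 - mj 1 (1 / 4 + y) = (336027/5120000) + (-77/2048) * y ^ 1 + (-225/256) * y ^ 2 + (-5/64) * y ^ 3 + (7/32) * y ^ 4 + (3/40) * y ^ 5 := by
    unfold mj WW
    push_cast
    ring
  have q1 := P 1
  have q2 := P 2
  have q3 := P 3
  have q4 := P 4
  have q5 := P 5
  norm_num at q1 q2 q3 q4 q5
  linarith [q1.1, q1.2, q2.1, q2.2, q3.1, q3.2, q4.1, q4.2, q5.1, q5.2]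

theorem mj6_2_2 {x : ℝ} (h0 : 1 / 4 ≤ x) (h1 : x ≤ 1 / 2) : mj 2 x ≤ 1 / 4 := by
  obtain ⟨y, rfl⟩ : ∃ y, x = 1 / 4 + y := ⟨x - (1 / 4), by ring⟩
  have y0 : 0 ≤ y := by linarith
  have y1 : y ≤ 1 / 4 := by linarith
  have P : ∀ i : ℕ, 0 ≤ y ^ i ∧ y ^ (i + 1) ≤ 1 / 4 * y ^ i := by
    intro i
    have hi := pow_nonneg y0 i
    refine ⟨hi, ?_⟩
    rw [pow_succ, mul_comm]
    exact mul_le_mul_of_nonneg_right y1 hi
  have e : 1 / 4 - mj 2 (1 / 4 + y) = (7/80) + (-1/10) * y ^ 1 + (-1) * y ^ 2 := by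
    unfold mj WW
    push_cast
    ring
  have q1 := P 1
  have q2 := P 2
  norm_num at q1 q2
  linarith [q1.1, q1.2, q2.1, q2.2]

theorem pw6_2 {N : ℕ} (hN : 7 ≤ N) {L : Fin N → ℂ} (hL : ∀ a, ‖L a‖ ≤ 1)
    {x : ℝ} (hax : 1 / 4 ≤ x) (hxb : x ≤ 1 / 2)
    (htp : 25 / 4 ≤ ∑ a, (1 - (L a).re)) (htm : 23 / 4 ≤ ∑ a, (1 + (L a).re)) :
    PW L 6 x := by
  have hx1 : x < 1 := by linarith
  have hNr : (7:ℝ) ≤ N := by exact_mod_cast hN
  refine pw_cst (by omega) (by norm_num) hL (a := 1 / 4) (b := 1 / 2) (tp := 25 / 4) (tm := 23 / 4) (u0 := 1 / 14)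
    (bb := fun j => if j = 1 then 2613 / 1000 else if j = 2 then 1071 / 200 else if j = 3 then 2091 / 100 else if j = 4 then 7017 / 400 else if j = 5 then 4149 / 500 else if j = 6 then 3463 / 2000 else 0)
    (lam := fun j => if j = 2 then 197 / 125 else if j = 3 then 2943 / 1000 else if j = 4 then 309 / 200 else if j = 5 then 21 / 50 else if j = 6 then 1 / 400 else 0)
    (by norm_num) hax hxb (by norm_num) htp htm (by norm_num) (by linarith) (by norm_num) (by norm_num)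
    ?_ ?_ ?_ (by norm_num) ?_ ?_ ?_ ?_
  · intro M hM j hj hjk
    interval_cases j
    · refine d_T3 (j := 0) (d := 8) hL (by omega) (by norm_num) hax hxb hx1.le hM (by omega)
        (mj6_2_1 hax hxb) ?_
      norm_num [gq, gam, Finset.sum_range_succ, Nat.choose]
    · refine d_T3 (j := 1) (d := 8) hL (by omega) (by norm_num) hax hxb hx1.le hM (by omega)
        (mj6_2_2 hax hxb) ?_
      norm_num [gq, gam, Finset.sum_range_succ, Nat.choose]
    · refine d_T1 (j := 3) (d := 8) hL (by omega) (by norm_num) hax hx1.le hM (by omega) ?_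
      norm_num [tt, gam, Finset.sum_range_succ, Nat.choose]
    · refine d_T1 (j := 4) (d := 8) hL (by omega) (by norm_num) hax hx1.le hM (by omega) ?_
      norm_num [tt, gam, Finset.sum_range_succ, Nat.choose]
    · refine d_T1 (j := 5) (d := 8) hL (by omega) (by norm_num) hax hx1.le hM (by omega) ?_
      norm_num [tt, gam, Finset.sum_range_succ, Nat.choose]
    · refine d_T1 (j := 6) (d := 8) hL (by omega) (by norm_num) hax hx1.le hM (by omega) ?_
      norm_num [tt, gam, Finset.sum_range_succ, Nat.choose]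
  · intro j
    split_ifs <;> norm_num
  · intro j
    split_ifs <;> norm_num
  · intro i hi hi4
    interval_cases i <;> norm_num [Ef]
  · intro i hi hi4
    interval_cases i <;> norm_num [Ef]
  · intro j hj hjk
    interval_cases j <;> norm_num
  · intro j hj hjk
    interval_cases j <;> norm_num

theorem mj6_3_1 {x : ℝ} (h0 : 1 / 2 ≤ x) (h1 : x ≤ 3 / 5) : mj 1 x ≤ 2261 / 5000 := by
  obtain ⟨y, rfl⟩ : ∃ y, x = 1 / 2 + y := ⟨x - (1 / 2), by ring⟩
  have y0 : 0 ≤ y := by linarith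
  have y1 : y ≤ 1 / 10 := by linarith
  have P : ∀ i : ℕ, 0 ≤ y ^ i ∧ y ^ (i + 1) ≤ 1 / 10 * y ^ i := by
    intro i
    have hi := pow_nonneg y0 i
    refine ⟨hi, ?_⟩
    rw [pow_succ, mul_comm]
    exact mul_le_mul_of_nonneg_right y1 hi
  have e : 2261 / 5000 - mj 1 (1 / 2 + y) = (8977/160000) + (-61/128) * y ^ 1 + (-27/32) * y ^ 2 + (3/16) * y ^ 3 + (5/16) * y ^ 4 + (3/40) * y ^ 5 := by
    unfold mj WW
    push_cast
    ring
  have q1 := P 1
  have q2 := P 2
  have q3 := P 3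
  have q4 := P 4
  have q5 := P 5
  norm_num at q1 q2 q3 q4 q5
  linarith [q1.1, q1.2, q2.1, q2.2, q3.1, q3.2, q4.1, q4.2, q5.1, q5.2]

theorem mj6_3_2 {x : ℝ} (h0 : 1 / 2 ≤ x) (h1 : x ≤ 3 / 5) : mj 2 x ≤ 8 / 25 := by
  obtain ⟨y, rfl⟩ : ∃ y, x = 1 / 2 + y := ⟨x - (1 / 2), by ring⟩
  have y0 : 0 ≤ y := by linarith
  have y1 : y ≤ 1 / 10 := by linarith
  have P : ∀ i : ℕ, 0 ≤ y ^ i ∧ y ^ (i + 1) ≤ 1 / 10 * y ^ i := by
    intro i
    have hi := pow_nonneg y0 i
    refine ⟨hi, ?_⟩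
    rw [pow_succ, mul_comm]
    exact mul_le_mul_of_nonneg_right y1 hi
  have e : 8 / 25 - mj 2 (1 / 2 + y) = (7/100) + (-3/5) * y ^ 1 + (-1) * y ^ 2 := by
    unfold mj WW
    push_cast
    ring
  have q1 := P 1
  have q2 := P 2
  norm_num at q1 q2
  linarith [q1.1, q1.2, q2.1, q2.2]

theorem pw6_3 {N : ℕ} (hN : 7 ≤ N) {L : Fin N → ℂ} (hL : ∀ a, ‖L a‖ ≤ 1)
    {x : ℝ} (hax : 1 / 2 ≤ x) (hxb : x ≤ 3 / 5)
    (htp : 25 / 4 ≤ ∑ a, (1 - (L a).re)) (htm : 23 / 4 ≤ ∑ a, (1 + (L a).re)) :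
    PW L 6 x := by
  have hx1 : x < 1 := by linarith
  have hNr : (7:ℝ) ≤ N := by exact_mod_cast hN
  refine pw_cst (by omega) (by norm_num) hL (a := 1 / 2) (b := 3 / 5) (tp := 25 / 4) (tm := 23 / 4) (u0 := 1 / 14)
    (bb := fun j => if j = 1 then 2943 / 1000 else if j = 2 then 1233 / 200 else if j = 3 then 947 / 100 else if j = 4 then 2619 / 400 else if j = 5 then 1317 / 500 else if j = 6 then 479 / 1000 else 0)
    (lam := fun j => if j = 2 then 2387 / 2000 else if j = 3 then 2653 / 2000 else if j = 4 then 313 / 500 else if j = 5 then 133 / 1000 else if j = 6 then 3 / 1000 else 0)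
    (by norm_num) hax hxb (by norm_num) htp htm (by norm_num) (by linarith) (by norm_num) (by norm_num)
    ?_ ?_ ?_ (by norm_num) ?_ ?_ ?_ ?_
  · intro M hM j hj hjk
    interval_cases j
    · refine d_T3 (j := 0) (d := 8) hL (by omega) (by norm_num) hax hxb hx1.le hM (by omega)
        (mj6_3_1 hax hxb) ?_
      norm_num [gq, gam, Finset.sum_range_succ, Nat.choose]
    · refine d_T3 (j := 1) (d := 8) hL (by omega) (by norm_num) hax hxb hx1.le hM (by omega)
        (mj6_3_2 hax hxb) ?_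
      norm_num [gq, gam, Finset.sum_range_succ, Nat.choose]
    · refine d_T1 (j := 3) (d := 8) hL (by omega) (by norm_num) hax hx1.le hM (by omega) ?_
      norm_num [tt, gam, Finset.sum_range_succ, Nat.choose]
    · refine d_T1 (j := 4) (d := 8) hL (by omega) (by norm_num) hax hx1.le hM (by omega) ?_
      norm_num [tt, gam, Finset.sum_range_succ, Nat.choose]
    · refine d_T1 (j := 5) (d := 8) hL (by omega) (by norm_num) hax hx1.le hM (by omega) ?_
      norm_num [tt, gam, Finset.sum_range_succ, Nat.choose]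
    · refine d_T1 (j := 6) (d := 8) hL (by omega) (by norm_num) hax hx1.le hM (by omega) ?_
      norm_num [tt, gam, Finset.sum_range_succ, Nat.choose]
  · intro j
    split_ifs <;> norm_num
  · intro j
    split_ifs <;> norm_num
  · intro i hi hi4
    interval_cases i <;> norm_num [Ef]
  · intro i hi hi4
    interval_cases i <;> norm_num [Ef]
  · intro j hj hjk
    interval_cases j <;> norm_num
  · intro j hj hjk
    interval_cases j <;> norm_num

theorem mj6_4_1 {x : ℝ} (h0 : 3 / 5 ≤ x) (h1 : x ≤ 13 / 20) : mj 1 x ≤ 4859 / 10000 := by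
  obtain ⟨y, rfl⟩ : ∃ y, x = 3 / 5 + y := ⟨x - (3 / 5), by ring⟩
  have y0 : 0 ≤ y := by linarith
  have y1 : y ≤ 1 / 20 := by linarith
  have P : ∀ i : ℕ, 0 ≤ y ^ i ∧ y ^ (i + 1) ≤ 1 / 20 * y ^ i := by
    intro i
    have hi := pow_nonneg y0 i
    refine ⟨hi, ?_⟩
    rw [pow_succ, mul_comm]
    exact mul_le_mul_of_nonneg_right y1 hi
  have e : 4859 / 10000 - mj 1 (3 / 5 + y) = (8483/250000) + (-399/625) * y ^ 1 + (-96/125) * y ^ 2 + (8/25) * y ^ 3 + (7/20) * y ^ 4 + (3/40) * y ^ 5 := by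
    unfold mj WW
    push_cast
    ring
  have q1 := P 1
  have q2 := P 2
  have q3 := P 3
  have q4 := P 4
  have q5 := P 5
  norm_num at q1 q2 q3 q4 q5
  linarith [q1.1, q1.2, q2.1, q2.2, q3.1, q3.2, q4.1, q4.2, q5.1, q5.2]

theorem pw6_4 {N : ℕ} (hN : 7 ≤ N) {L : Fin N → ℂ} (hL : ∀ a, ‖L a‖ ≤ 1)
    {x : ℝ} (hax : 3 / 5 ≤ x) (hxb : x ≤ 13 / 20)
    (htp : 25 / 4 ≤ ∑ a, (1 - (L a).re)) (htm : 23 / 4 ≤ ∑ a, (1 + (L a).re)) :
    PW L 6 x := by
  have hx1 : x < 1 := by linarith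
  have hNr : (7:ℝ) ≤ N := by exact_mod_cast hN
  refine pw_cst (by omega) (by norm_num) hL (a := 3 / 5) (b := 13 / 20) (tp := 25 / 4) (tm := 23 / 4) (u0 := 1 / 14)
    (bb := fun j => if j = 1 then 3147 / 1000 else if j = 2 then 1281 / 200 else if j = 3 then 163 / 25 else if j = 4 then 417 / 100 else if j = 5 then 789 / 500 else if j = 6 then 273 / 1000 else 0)
    (lam := fun j => if j = 2 then 277 / 250 else if j = 3 then 114 / 125 else if j = 4 then 869 / 2000 else if j = 5 then 39 / 500 else if j = 6 then 1 / 400 else 0)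
    (by norm_num) hax hxb (by norm_num) htp htm (by norm_num) (by linarith) (by norm_num) (by norm_num)
    ?_ ?_ ?_ (by norm_num) ?_ ?_ ?_ ?_
  · intro M hM j hj hjk
    interval_cases j
    · refine d_T3 (j := 0) (d := 8) hL (by omega) (by norm_num) hax hxb hx1.le hM (by omega)
        (mj6_4_1 hax hxb) ?_
      norm_num [gq, gam, Finset.sum_range_succ, Nat.choose]
    · refine d_T1 (j := 2) (d := 8) hL (by omega) (by norm_num) hax hx1.le hM (by omega) ?_
      norm_num [tt, gam, Finset.sum_range_succ, Nat.choose]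
    · refine d_T1 (j := 3) (d := 8) hL (by omega) (by norm_num) hax hx1.le hM (by omega) ?_
      norm_num [tt, gam, Finset.sum_range_succ, Nat.choose]
    · refine d_T1 (j := 4) (d := 8) hL (by omega) (by norm_num) hax hx1.le hM (by omega) ?_
      norm_num [tt, gam, Finset.sum_range_succ, Nat.choose]
    · refine d_T1 (j := 5) (d := 8) hL (by omega) (by norm_num) hax hx1.le hM (by omega) ?_
      norm_num [tt, gam, Finset.sum_range_succ, Nat.choose]
    · refine d_T1 (j := 6) (d := 8) hL (by omega) (by norm_num) hax hx1.le hM (by omega) ?_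
      norm_num [tt, gam, Finset.sum_range_succ, Nat.choose]
  · intro j
    split_ifs <;> norm_num
  · intro j
    split_ifs <;> norm_num
  · intro i hi hi4
    interval_cases i <;> norm_num [Ef]
  · intro i hi hi4
    interval_cases i <;> norm_num [Ef]
  · intro j hj hjk
    interval_cases j <;> norm_num
  · intro j hj hjk
    interval_cases j <;> norm_num

theorem mj6_5_1 {x : ℝ} (h0 : 13 / 20 ≤ x) (h1 : x ≤ 7 / 10) : mj 1 x ≤ 327 / 625 := by
  obtain ⟨y, rfl⟩ : ∃ y, x = 13 / 20 + y := ⟨x - (13 / 20), by ring⟩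
  have y0 : 0 ≤ y := by linarith
  have y1 : y ≤ 1 / 20 := by linarith
  have P : ∀ i : ℕ, 0 ≤ y ^ i ∧ y ^ (i + 1) ≤ 1 / 20 * y ^ i := by
    intro i
    have hi := pow_nonneg y0 i
    refine ⟨hi, ?_⟩
    rw [pow_succ, mul_comm]
    exact mul_le_mul_of_nonneg_right y1 hi
  have e : 327 / 625 - mj 1 (13 / 20 + y) = (4791579/128000000) + (-912157/1280000) * y ^ 1 + (-22869/32000) * y ^ 2 + (627/1600) * y ^ 3 + (59/160) * y ^ 4 + (3/40) * y ^ 5 := by
    unfold mj WW
    push_cast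
    ring
  have q1 := P 1
  have q2 := P 2
  have q3 := P 3
  have q4 := P 4
  have q5 := P 5
  norm_num at q1 q2 q3 q4 q5
  linarith [q1.1, q1.2, q2.1, q2.2, q3.1, q3.2, q4.1, q4.2, q5.1, q5.2]

theorem pw6_5 {N : ℕ} (hN : 7 ≤ N) {L : Fin N → ℂ} (hL : ∀ a, ‖L a‖ ≤ 1)
    {x : ℝ} (hax : 13 / 20 ≤ x) (hxb : x ≤ 7 / 10)
    (htp : 25 / 4 ≤ ∑ a, (1 - (L a).re)) (htm : 23 / 4 ≤ ∑ a, (1 + (L a).re)) :
    PW L 6 x := by
  have hx1 : x < 1 := by linarith
  have hNr : (7:ℝ) ≤ N := by exact_mod_cast hN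
  refine pw_cst (by omega) (by norm_num) hL (a := 13 / 20) (b := 7 / 10) (tp := 25 / 4) (tm := 23 / 4) (u0 := 1 / 14)
    (bb := fun j => if j = 1 then 3369 / 1000 else if j = 2 then 1101 / 200 else if j = 3 then 533 / 100 else if j = 4 then 657 / 200 else if j = 5 then 603 / 500 else if j = 6 then 407 / 2000 else 0)
    (lam := fun j => if j = 2 then 991 / 1000 else if j = 3 then 323 / 400 else if j = 4 then 757 / 2000 else if j = 5 then 33 / 500 else if j = 6 then 3 / 2000 else 0)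
    (by norm_num) hax hxb (by norm_num) htp htm (by norm_num) (by linarith) (by norm_num) (by norm_num)
    ?_ ?_ ?_ (by norm_num) ?_ ?_ ?_ ?_
  · intro M hM j hj hjk
    interval_cases j
    · refine d_T3 (j := 0) (d := 8) hL (by omega) (by norm_num) hax hxb hx1.le hM (by omega)
        (mj6_5_1 hax hxb) ?_
      norm_num [gq, gam, Finset.sum_range_succ, Nat.choose]
    · refine d_T1 (j := 2) (d := 8) hL (by omega) (by norm_num) hax hx1.le hM (by omega) ?_
      norm_num [tt, gam, Finset.sum_range_succ, Nat.choose]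
    · refine d_T1 (j := 3) (d := 8) hL (by omega) (by norm_num) hax hx1.le hM (by omega) ?_
      norm_num [tt, gam, Finset.sum_range_succ, Nat.choose]
    · refine d_T1 (j := 4) (d := 8) hL (by omega) (by norm_num) hax hx1.le hM (by omega) ?_
      norm_num [tt, gam, Finset.sum_range_succ, Nat.choose]
    · refine d_T1 (j := 5) (d := 8) hL (by omega) (by norm_num) hax hx1.le hM (by omega) ?_
      norm_num [tt, gam, Finset.sum_range_succ, Nat.choose]
    · refine d_T1 (j := 6) (d := 8) hL (by omega) (by norm_num) hax hx1.le hM (by omega) ?_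
      norm_num [tt, gam, Finset.sum_range_succ, Nat.choose]
  · intro j
    split_ifs <;> norm_num
  · intro j
    split_ifs <;> norm_num
  · intro i hi hi4
    interval_cases i <;> norm_num [Ef]
  · intro i hi hi4
    interval_cases i <;> norm_num [Ef]
  · intro j hj hjk
    interval_cases j <;> norm_num
  · intro j hj hjk
    interval_cases j <;> norm_num

end Pool.Agent.HTen
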