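import Pool.Agent.HTen.Bnd
import Pool.Agent.HTen.Quad

set_option autoImplicit false

namespace Pool.Agent.HTen

open Finset Polynomial Pool.Agent.HStar Pool.Agent.HFin Pool.Agent.HSixP1

/-- Four constants as a function. -/
noncomputable def cv (c1 c2 c3 c4 : ℝ) (j : ℕ) : ℝ :=
  if j = 1 then c1 else if j = 2 then c2 else if j = 3 then c3 else c4

/-- The bound at `x ∈ [a, b]` from numerical constants, `k ≥ 8`. -/
theorem pw_of_c {N k : ℕ} (hk8 : 8 ≤ k) (hkN : k + 1 ≤ N) {L : Fin N → ℂ} (hL : ∀ a, ‖L a‖ ≤ 1)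
    {x : ℝ} (hx0 : 0 ≤ x) (hx1 : x < 1)
    (htp : (k:ℝ) + 1 / 4 ≤ ∑ a, (1 - (L a).re)) (htm : (k:ℝ) - 1 / 4 ≤ ∑ a, (1 + (L a).re))
    {a b c1 c2 c3 c4 Q2 Q3 Q4 K κ φ α β e s4 t4 Cb : ℝ} (ha0 : 0 ≤ a) (hax : a ≤ x) (hxb : x ≤ b)
    (hb7 : b ≤ 7 / 10) (hb0 : 5 / 36 ≤ b)
    (hc1 : 0 ≤ c1) (hc2 : 0 ≤ c2) (hc3 : 0 ≤ c3) (hc4 : 0 ≤ c4)
    (hQ2 : 0 ≤ Q2) (hQ3 : 0 ≤ Q3) (hQ4 : 0 ≤ Q4) (hK : 0 ≤ K) (hφ0 : 0 ≤ φ) (hβ : 0 ≤ β)
    (hαβ : β ≤ α)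
    (b1 : ∀ M, IsM L k M → |(hasseDeriv (k - 1) (omR L)).eval x| ≤ (k.choose 1 : ℝ) * c1 * M)
    (b2 : ∀ M, IsM L k M → |(hasseDeriv (k - 2) (omR L)).eval x| ≤ (k.choose 2 : ℝ) * c2 * M)
    (b3 : ∀ M, IsM L k M → |(hasseDeriv (k - 3) (omR L)).eval x| ≤ (k.choose 3 : ℝ) * c3 * M)
    (b4 : ∀ M, IsM L k M → |(hasseDeriv (k - 4) (omR L)).eval x| ≤ (k.choose 4 : ℝ) * c4 * M)
    (q2p : ∀ r : ℝ, 8 ≤ r → r - 1 ≤ Q2 * (2 * r - 1 / 2 - 5 * b))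
    (q2m : ∀ r : ℝ, 8 ≤ r → r - 1 ≤ Q2 * (2 * r - 3 / 2))
    (q3p : ∀ r : ℝ, 8 ≤ r → r - 2 ≤ Q3 * (2 * r - 1 / 2 - 7 * b))
    (q3m : ∀ r : ℝ, 8 ≤ r → r - 2 ≤ Q3 * (2 * r - 3 / 2))
    (q4p : ∀ r : ℝ, 8 ≤ r → r - 3 ≤ Q4 * (2 * r - 1 / 2 - 9 * b))
    (q4m : ∀ r : ℝ, 8 ≤ r → r - 3 ≤ Q4 * (2 * r - 3 / 2))
    (hKp : ∀ r j : ℝ, 8 ≤ r → 5 ≤ j → j ≤ r → r - j + 1 ≤ K * (2 * r - 1 / 2 - (2 * j + 1) * b))
    (hKm : ∀ r j : ℝ, 8 ≤ r → 5 ≤ j → j ≤ r → r - j + 1 ≤ K * (2 * r - 3 / 2))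
    (hKκ : (1 - a) * K ≤ κ)
    (hφp : ∀ r j : ℝ, 8 ≤ r → 5 ≤ j → j ≤ r →
      j * (r - j + 1) ≤ φ * (r + 2 + j) * (2 * r - 1 / 2 - (2 * j + 1) * b))
    (hφm : ∀ r j : ℝ, 8 ≤ r → 5 ≤ j → j ≤ r →
      j * (r - j + 1) ≤ φ * (r + 2 + j) * (2 * r - 3 / 2))
    (h1 : (1 + α) * κ + 2 * (1 + β) * φ ≤ α) (h2 : (1 + β) * φ * (1 - a + 2) ≤ β)
    (hs4 : (1 - a) ^ 4 ≤ s4) (ht4 : tt 10 (1 - a) 4 ≤ t4)
    (htot : c1 + Q2 * (c2 + Q3 * (c3 + Q4 * (c4 + (α - β) * s4 + β * t4))) ≤ e)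
    (hC1 : ((3 / 2 + 2 * b) ^ 2 + (3 / 2 + 2 * b)) / 18 + (3 / 2 + 2 * b) ^ 2 / 648 ≤ Cb)
    (hC2 : (15 / 4) / 18 + (25 / 4) / 648 ≤ Cb)
    (hE : ∀ r : ℝ, 8 ≤ r → 2 * (e * r) ≤ 2 * r + 3 / 2 - 2 * b - Cb) : PW L k x := by
  have hk8r : (8:ℝ) ≤ k := by exact_mod_cast hk8
  have hs : 0 ≤ 1 - x := by linarith
  have hsa : 1 - x ≤ 1 - a := by linarith
  obtain ⟨hE1, hE2⟩ := E_ok (b := b) (Cb := Cb) (c := 2 * (e * k)) hk8 hkN hx0 hxb hb7 hb0 hC1 hC2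
    (hE k hk8r)
  have hK1 : ∀ u v Q : ℝ, 0 ≤ Q → v ≤ u → Q * v ≤ Q * u := fun u v Q hQ h =>
    mul_le_mul_of_nonneg_left h hQ
  refine pw_abs (J := k) (by omega : 1 ≤ N) hL hx0 hx1 htp htm (b := bb k (cv c1 c2 c3 c4) (1 - x))
    (E := e * k) ?_ ?_ hE1 hE2 ?_
  · intro M hM η
    have hM0 : 0 ≤ M := (abs_nonneg _).trans (hM x ⟨by linarith, hx1.le⟩)
    refine maj_of_coef (h := fun i => (hasseDeriv i (omR L)).eval x) ?_ η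
    intro j hj hjk
    by_cases h4 : j ≤ 4
    · have hj4 : j = 1 ∨ j = 2 ∨ j = 3 ∨ j = 4 := by omega
      rcases hj4 with rfl | rfl | rfl | rfl
      · have := b1 M hM
        simpa [bb, cv] using this
      · have := b2 M hM
        simpa [bb, cv] using this
      · have := b3 M hM
        simpa [bb, cv] using this
      · have := b4 M hM
        simpa [bb, cv] using this
    · have h := T1 hL (by omega : k ≤ 2 * N) (by linarith : -1 ≤ x) hx1.le hM hjk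
      simp only [bb, if_neg h4]
      refine h.trans (mul_le_mul_of_nonneg_right (mul_le_mul_of_nonneg_left ?_
        (Nat.cast_nonneg _)) hM0)
      exact tt_anti (by omega) hs j
  · intro j
    unfold bb
    refine mul_nonneg (Nat.cast_nonneg _) ?_
    split_ifs
    · unfold cv
      split_ifs <;> assumption
    · exact tt_nonneg _ hs j
  · intro cc V hV
    have hcv : ∀ j, 0 ≤ cv c1 c2 c3 c4 j := by
      intro j
      unfold cv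
      split_ifs <;> assumption
    refine chain_total hk8 hx0 hx1 hV hcv (Q2 := Q2) (Q3 := Q3) (Q4 := Q4) (K := K) (κ := κ)
      (φ := φ) (α := α) (β := β) (e := e) (s4 := s4) (t4 := t4) hQ2 hQ3 hQ4 hK hφ0 hβ hαβ
      ((q2p k hk8r).trans (hK1 _ _ _ hQ2 (by linarith)))
      ((q2m k hk8r).trans (hK1 _ _ _ hQ2 (by linarith)))
      ((q3p k hk8r).trans (hK1 _ _ _ hQ3 (by linarith)))
      ((q3m k hk8r).trans (hK1 _ _ _ hQ3 (by linarith)))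
      ((q4p k hk8r).trans (hK1 _ _ _ hQ4 (by linarith)))
      ((q4m k hk8r).trans (hK1 _ _ _ hQ4 (by linarith))) ?_ ?_ ?_ ?_ ?_ h1 ?_ ?_ ?_ ?_
    · intro j hj hjk
      have hjr : (5:ℝ) ≤ j := by exact_mod_cast hj
      have hjkr : (j:ℝ) ≤ k := by exact_mod_cast hjk
      refine (hKp k j hk8r hjr hjkr).trans (hK1 _ _ _ hK ?_)
      have : (2 * (j:ℝ) + 1) * x ≤ (2 * j + 1) * b := mul_le_mul_of_nonneg_left hxb (by linarith)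
      linarith
    · intro j hj hjk
      have hjr : (5:ℝ) ≤ j := by exact_mod_cast hj
      have hjkr : (j:ℝ) ≤ k := by exact_mod_cast hjk
      refine (hKm k j hk8r hjr hjkr).trans (hK1 _ _ _ hK ?_)
      have : 0 ≤ ((j:ℝ) + 1) * x := by positivity
      linarith
    · refine le_trans ?_ hKκ
      exact mul_le_mul_of_nonneg_right hsa hK
    · intro j hj hjk
      have hjr : (5:ℝ) ≤ j := by exact_mod_cast hj
      have hjkr : (j:ℝ) ≤ k := by exact_mod_cast hjk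
      refine (hφp k j hk8r hjr hjkr).trans (hK1 _ _ _ (by positivity) ?_)
      have : (2 * (j:ℝ) + 1) * x ≤ (2 * j + 1) * b := mul_le_mul_of_nonneg_left hxb (by linarith)
      linarith
    · intro j hj hjk
      have hjr : (5:ℝ) ≤ j := by exact_mod_cast hj
      have hjkr : (j:ℝ) ≤ k := by exact_mod_cast hjk
      refine (hφm k j hk8r hjr hjkr).trans (hK1 _ _ _ (by positivity) ?_)
      have : 0 ≤ ((j:ℝ) + 1) * x := by positivity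
      linarith
    · refine le_trans ?_ h2
      exact mul_le_mul_of_nonneg_left (by linarith) (by positivity)
    · exact (pow_le_pow_left₀ hs hsa 4).trans hs4
    · exact (tt_anti (by omega : 10 ≤ k + 2) hs 4).trans ((tt_mono 10 hs hsa 4).trans ht4)
    · simpa [cv] using htot

end Pool.Agent.HTen
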