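import Pool.Agent.HStar.Chain
import Pool.Agent.HSixP1.T1
import Pool.Agent.HFin.Mom

set_option autoImplicit false

namespace Pool.Agent.HTen

open Finset Pool.Agent.HStar Pool.Agent.HSixP1 Polynomial

/-- The geometric tail. -/
theorem tail_sum {k : ℕ} {s κ φ α β : ℝ} {U : ℕ → ℝ} (hs : 0 ≤ s) (hU : ∀ j, 0 ≤ U j)
    (hα : 0 ≤ α) (hβ : 0 ≤ β)
    (hκ : ∀ j, 5 ≤ j → j ≤ k → s * U j ≤ κ * U (j - 1))
    (hφ : ∀ j, 5 ≤ j → j ≤ k → (j:ℝ) * U j ≤ φ * (k + 2 + j) * U (j - 1))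
    (h1 : (1 + α) * κ + 2 * (1 + β) * φ ≤ α) (h2 : (1 + β) * φ * (s + 2) ≤ β) (n : ℕ)
    (hn : n + 4 ≤ k) :
    ∑ j ∈ range n, tt (k + 2) s (j + 5) * U (j + 5) + α * (s ^ (n + 4) * U (n + 4)) +
      β * ((tt (k + 2) s (n + 4) - s ^ (n + 4)) * U (n + 4)) ≤
      α * (s ^ 4 * U 4) + β * ((tt (k + 2) s 4 - s ^ 4) * U 4) := by
  induction n with
  | zero => simp
  | succ n ih =>
    have ih' := ih (by omega)
    rw [sum_range_succ]
    set m := n + 4 with hm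
    have e1 : n + 1 + 4 = m + 1 := by omega
    have e2 : n + 5 = m + 1 := by omega
    rw [e1, e2]
    have k1 := hκ (m + 1) (by omega) (by omega)
    have k2 := hφ (m + 1) (by omega) (by omega)
    rw [Nat.add_sub_cancel] at k1 k2
    have hr : (tt (k + 2) s (m + 1) - s ^ (m + 1)) * (k + 2 + (m + 1)) =
        (m + 1) * (2 * s ^ m + (s + 2) * (tt (k + 2) s m - s ^ m)) := by
      have := tt_succ (k + 2) s m
      push_cast at this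
      rw [pow_succ] at this ⊢
      linear_combination this
    have hr0 : 0 ≤ tt (k + 2) s m - s ^ m := by linarith [pow_le_tt (k + 2) hs m]
    have hsm : 0 ≤ s ^ m := pow_nonneg hs m
    have hUm := hU m
    have hUm1 := hU (m + 1)
    have hpos : (0:ℝ) < k + 2 + (m + 1) := by positivity
    set r := tt (k + 2) s m - s ^ m with hrd
    set r' := tt (k + 2) s (m + 1) - s ^ (m + 1) with hrd'
    have k3 : r' * U (m + 1) ≤ φ * (2 * s ^ m + (s + 2) * r) * U m := by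
      have k4 : (k + 2 + (m + 1)) * (r' * U (m + 1)) ≤
          (k + 2 + (m + 1)) * (φ * (2 * s ^ m + (s + 2) * r) * U m) := by
        have k5 : 0 ≤ 2 * s ^ m + (s + 2) * r := by positivity
        have k6 := mul_le_mul_of_nonneg_right k2 k5
        push_cast at k6
        calc (k + 2 + (m + 1)) * (r' * U (m + 1)) = (r' * (k + 2 + (m + 1))) * U (m + 1) := by ring
          _ = ((m:ℝ) + 1) * U (m + 1) * (2 * s ^ m + (s + 2) * r) := by rw [hr]; ring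
          _ ≤ φ * (k + 2 + (m + 1)) * U m * (2 * s ^ m + (s + 2) * r) := k6
          _ = _ := by ring
      exact le_of_mul_le_mul_left k4 hpos
    have k7 : s ^ (m + 1) * U (m + 1) ≤ κ * (s ^ m * U m) := by
      rw [pow_succ]
      have := mul_le_mul_of_nonneg_left k1 hsm
      linarith
    have ett : tt (k + 2) s (m + 1) = s ^ (m + 1) + r' := by rw [hrd']; ring
    rw [ett]
    have P0 : 0 ≤ s ^ m * U m := mul_nonneg hsm hUm
    have R0 : 0 ≤ r * U m := mul_nonneg hr0 hUm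
    have a1 := mul_le_mul_of_nonneg_left k7 (by linarith : 0 ≤ 1 + α)
    have a2 := mul_le_mul_of_nonneg_left k3 (by linarith : 0 ≤ 1 + β)
    have a3 := mul_le_mul_of_nonneg_right h1 P0
    have a4 := mul_le_mul_of_nonneg_right h2 R0
    nlinarith [a1, a2, a3, a4, ih']

/-- One step of the normalised moments `C(k,j) V_j`. -/
theorem U_step {k j : ℕ} (hj : 2 ≤ j) (hjk : j ≤ k) {x tp tm c Q : ℝ} {V : ℕ → ℝ}
    (hx0 : 0 ≤ x) (hx1 : x < 1) (hV : Mom x tp tm c V) (hQ : 0 ≤ Q)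
    (hp : (k:ℝ) - j + 1 ≤ Q * Dp tp x j) (hm : (k:ℝ) - j + 1 ≤ Q * Dm tm x j) :
    (k.choose j : ℝ) * V j ≤ Q * ((k.choose (j - 1) : ℝ) * V (j - 1)) := by
  obtain ⟨i, rfl⟩ : ∃ i, j = i + 1 := ⟨j - 1, by omega⟩
  have hik : i < k := by omega
  have hkr : (0:ℝ) < (k:ℝ) - (i + 1 : ℕ) + 1 := by
    push_cast
    have : (i:ℝ) + 1 ≤ k := by exact_mod_cast hik
    linarith
  rw [Nat.add_sub_cancel]
  have hstep := mom_step hj hx0 hx1 hV (ρ := ((i + 1 : ℕ) : ℝ) * Q / ((k:ℝ) - (i + 1 : ℕ) + 1))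
    (by positivity) (Or.inl ⟨by
      rw [div_mul_eq_mul_div, le_div_iff₀ hkr]
      have := mul_le_mul_of_nonneg_left hp (Nat.cast_nonneg (i + 1) : (0:ℝ) ≤ ((i + 1 : ℕ) : ℝ))
      linarith, by
      rw [div_mul_eq_mul_div, le_div_iff₀ hkr]
      have := mul_le_mul_of_nonneg_left hm (Nat.cast_nonneg (i + 1) : (0:ℝ) ≤ ((i + 1 : ℕ) : ℝ))
      linarith⟩)
  rw [Nat.add_sub_cancel] at hstep
  have hc : (k.choose (i + 1) : ℝ) * ((i + 1 : ℕ) : ℝ) =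
      (k.choose i : ℝ) * ((k:ℝ) - (i + 1 : ℕ) + 1) := by
    have h := Nat.choose_succ_right_eq k i
    have h2 : (k.choose (i + 1) : ℝ) * ((i + 1 : ℕ) : ℝ) =
      (k.choose i : ℝ) * ((k - i : ℕ) : ℝ) := by exact_mod_cast h
    rw [h2, Nat.cast_sub hik.le]
    push_cast
    ring
  have h3 := mul_le_mul_of_nonneg_left hstep (Nat.cast_nonneg (k.choose (i + 1)) : (0:ℝ) ≤ _)
  refine h3.trans (le_of_eq ?_)
  rw [← mul_assoc, mul_div_assoc', ← mul_assoc, hc]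
  field_simp

/-- The coefficients `b_j`. -/
noncomputable def bb (k : ℕ) (c : ℕ → ℝ) (s : ℝ) (j : ℕ) : ℝ :=
  (k.choose j : ℝ) * (if j ≤ 4 then c j else tt (k + 2) s j)

/-- The sum of the chain. -/
theorem chain_total {k : ℕ} (hk : 8 ≤ k) {x : ℝ} (hx0 : 0 ≤ x) (hx1 : x < 1)
    {cc : ℝ} {V : ℕ → ℝ} (hV : Mom x (k + 1 / 4) (k - 1 / 4) cc V)
    {c : ℕ → ℝ} (hc : ∀ j, 0 ≤ c j)
    {Q2 Q3 Q4 K κ φ α β e s4 t4 : ℝ} (hQ2 : 0 ≤ Q2) (hQ3 : 0 ≤ Q3) (hQ4 : 0 ≤ Q4) (hK : 0 ≤ K)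
    (hφ0 : 0 ≤ φ) (hβ : 0 ≤ β) (hαβ : β ≤ α)
    (q2p : (k:ℝ) - 1 ≤ Q2 * (2 * k - 1 / 2 - 5 * x)) (q2m : (k:ℝ) - 1 ≤ Q2 * (2 * k - 3 / 2 + 3 * x))
    (q3p : (k:ℝ) - 2 ≤ Q3 * (2 * k - 1 / 2 - 7 * x)) (q3m : (k:ℝ) - 2 ≤ Q3 * (2 * k - 3 / 2 + 4 * x))
    (q4p : (k:ℝ) - 3 ≤ Q4 * (2 * k - 1 / 2 - 9 * x)) (q4m : (k:ℝ) - 3 ≤ Q4 * (2 * k - 3 / 2 + 5 * x))
    (hKp : ∀ j : ℕ, 5 ≤ j → j ≤ k → (k:ℝ) - j + 1 ≤ K * (2 * k - 1 / 2 - (2 * j + 1) * x))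
    (hKm : ∀ j : ℕ, 5 ≤ j → j ≤ k → (k:ℝ) - j + 1 ≤ K * (2 * k - 3 / 2 + (j + 1) * x))
    (hKκ : (1 - x) * K ≤ κ)
    (hφp : ∀ j : ℕ, 5 ≤ j → j ≤ k →
      (j:ℝ) * ((k:ℝ) - j + 1) ≤ φ * (k + 2 + j) * (2 * k - 1 / 2 - (2 * j + 1) * x))
    (hφm : ∀ j : ℕ, 5 ≤ j → j ≤ k →
      (j:ℝ) * ((k:ℝ) - j + 1) ≤ φ * (k + 2 + j) * (2 * k - 3 / 2 + (j + 1) * x))
    (h1 : (1 + α) * κ + 2 * (1 + β) * φ ≤ α) (h2 : (1 + β) * φ * (1 - x + 2) ≤ β)
    (hs4 : (1 - x) ^ 4 ≤ s4) (ht4 : tt (k + 2) (1 - x) 4 ≤ t4)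
    (htot : c 1 + Q2 * (c 2 + Q3 * (c 3 + Q4 * (c 4 + (α - β) * s4 + β * t4))) ≤ e) :
    ∑ j ∈ range k, bb k c (1 - x) (j + 1) * V (j + 1) ≤ (e * k) * V 1 := by
  have hs : 0 ≤ 1 - x := by linarith
  set U : ℕ → ℝ := fun j => (k.choose j : ℝ) * V j with hUd
  have hU : ∀ j, 0 ≤ U j := fun j => mul_nonneg (Nat.cast_nonneg _) (hV.nonneg j)
  have eDp : ∀ j : ℕ, Dp (k + 1 / 4) x j = 2 * k - 1 / 2 - (2 * j + 1) * x := by
    intro j; unfold Dp; ring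
  have eDm : ∀ j : ℕ, 2 * (k:ℝ) - 3 / 2 + (j + 1) * x ≤ Dm (k - 1 / 4) x j := by
    intro j
    have := Dm_ge ((k:ℝ) - 1 / 4) hx0 hx1.le j
    linarith
  have step : ∀ j : ℕ, 2 ≤ j → j ≤ k → ∀ Q : ℝ, 0 ≤ Q →
      (k:ℝ) - j + 1 ≤ Q * (2 * k - 1 / 2 - (2 * j + 1) * x) →
      (k:ℝ) - j + 1 ≤ Q * (2 * k - 3 / 2 + (j + 1) * x) → U j ≤ Q * U (j - 1) := by
    intro j hj hjk Q hQ hp hm
    refine U_step hj hjk hx0 hx1 hV hQ ?_ ?_
    · rw [eDp]; exact hp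
    · exact hm.trans (mul_le_mul_of_nonneg_left (eDm j) hQ)
  have u1 : U 1 = k * V 1 := by simp [hUd]
  have u2 : U 2 ≤ Q2 * U 1 := step 2 le_rfl (by omega) Q2 hQ2
    (by push_cast; linarith) (by push_cast; linarith)
  have u3 : U 3 ≤ Q3 * U 2 := step 3 (by omega) (by omega) Q3 hQ3
    (by push_cast; linarith) (by push_cast; linarith)
  have u4 : U 4 ≤ Q4 * U 3 := step 4 (by omega) (by omega) Q4 hQ4
    (by push_cast; linarith) (by push_cast; linarith)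
  have uK : ∀ j, 5 ≤ j → j ≤ k → (1 - x) * U j ≤ κ * U (j - 1) := by
    intro j hj hjk
    have := step j (by omega) hjk K hK (hKp j hj hjk) (hKm j hj hjk)
    have h3 := mul_le_mul_of_nonneg_left this hs
    have h4 := mul_le_mul_of_nonneg_right hKκ (hU (j - 1))
    linarith
  have uφ : ∀ j, 5 ≤ j → j ≤ k → (j:ℝ) * U j ≤ φ * (k + 2 + j) * U (j - 1) := by
    intro j hj hjk
    have hj0 : (0:ℝ) < j := by exact_mod_cast (by omega : 0 < j)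
    have := step j (by omega) hjk (φ * (k + 2 + j) / j) (by positivity)
      (by
        rw [div_mul_eq_mul_div, le_div_iff₀ hj0]
        linarith [hφp j hj hjk])
      (by
        rw [div_mul_eq_mul_div, le_div_iff₀ hj0]
        linarith [hφm j hj hjk])
    have h3 := mul_le_mul_of_nonneg_left this hj0.le
    refine h3.trans (le_of_eq ?_)
    field_simp
  obtain ⟨n, rfl⟩ : ∃ n, k = n + 4 := ⟨k - 4, by omega⟩
  have htail := tail_sum hs hU (hβ.trans hαβ) hβ uK uφ h1 h2 n le_rfl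
  have hsn := pow_nonneg hs (n + 4)
  have hrn : 0 ≤ tt (n + 4 + 2) (1 - x) (n + 4) - (1 - x) ^ (n + 4) := by
    linarith [pow_le_tt (n + 4 + 2) hs (n + 4)]
  have hα : 0 ≤ α := hβ.trans hαβ
  have t1 : ∑ j ∈ range n, tt (n + 4 + 2) (1 - x) (j + 5) * U (j + 5) ≤
      ((α - β) * s4 + β * t4) * U 4 := by
    have a1 : 0 ≤ α * ((1 - x) ^ (n + 4) * U (n + 4)) :=
      mul_nonneg hα (mul_nonneg hsn (hU _))
    have a2 : 0 ≤ β * ((tt (n + 4 + 2) (1 - x) (n + 4) - (1 - x) ^ (n + 4)) * U (n + 4)) :=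
      mul_nonneg hβ (mul_nonneg hrn (hU _))
    have a3 := mul_le_mul_of_nonneg_right (mul_le_mul_of_nonneg_left hs4
      (by linarith : 0 ≤ α - β)) (hU 4)
    have a4 := mul_le_mul_of_nonneg_right (mul_le_mul_of_nonneg_left ht4 hβ) (hU 4)
    nlinarith [htail, a1, a2, a3, a4]
  rw [sum_range_succ', sum_range_succ', sum_range_succ', sum_range_succ']
  have e5 : ∀ j ∈ range n, bb (n + 4) c (1 - x) (j + 1 + 1 + 1 + 1 + 1) *
      V (j + 1 + 1 + 1 + 1 + 1) = tt (n + 4 + 2) (1 - x) (j + 5) * U (j + 5) := by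
    intro j _
    have : j + 1 + 1 + 1 + 1 + 1 = j + 5 := by ring
    rw [this]
    simp only [bb, hUd]
    rw [if_neg (by omega)]
    ring
  rw [sum_congr rfl e5]
  have e4 : bb (n + 4) c (1 - x) (0 + 1 + 1 + 1 + 1) * V (0 + 1 + 1 + 1 + 1) = c 4 * U 4 := by
    simp only [bb, hUd]
    norm_num
    ring
  have e3 : bb (n + 4) c (1 - x) (0 + 1 + 1 + 1) * V (0 + 1 + 1 + 1) = c 3 * U 3 := by
    simp only [bb, hUd]
    norm_num
    ring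
  have e2 : bb (n + 4) c (1 - x) (0 + 1 + 1) * V (0 + 1 + 1) = c 2 * U 2 := by
    simp only [bb, hUd]
    norm_num
    ring
  have e1 : bb (n + 4) c (1 - x) (0 + 1) * V (0 + 1) = c 1 * U 1 := by
    simp only [bb, hUd]
    norm_num
    ring
  rw [e4, e3, e2, e1]
  set T := (α - β) * s4 + β * t4 with hT
  have hT0 : 0 ≤ T := by
    have : 0 ≤ s4 := (pow_nonneg hs 4).trans hs4
    have : 0 ≤ t4 := (tt_nonneg _ hs 4).trans ht4
    have : 0 ≤ α - β := by linarith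
    positivity
  have hc4 := hc 4
  have hc3 := hc 3
  have hc2 := hc 2
  have b4 : (c 4 + T) * U 4 ≤ (c 4 + T) * (Q4 * U 3) :=
    mul_le_mul_of_nonneg_left u4 (by linarith)
  have b3 : (c 3 + Q4 * (c 4 + T)) * U 3 ≤ (c 3 + Q4 * (c 4 + T)) * (Q3 * U 2) :=
    mul_le_mul_of_nonneg_left u3 (by positivity)
  have b2 : (c 2 + Q3 * (c 3 + Q4 * (c 4 + T))) * U 2 ≤
      (c 2 + Q3 * (c 3 + Q4 * (c 4 + T))) * (Q2 * U 1) :=
    mul_le_mul_of_nonneg_left u2 (by positivity)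
  have b1 : (c 1 + Q2 * (c 2 + Q3 * (c 3 + Q4 * (c 4 + T)))) * U 1 ≤ e * U 1 := by
    apply mul_le_mul_of_nonneg_right _ (hU 1)
    rw [hT]
    linarith
  rw [u1] at b1
  rw [u1] at b2 ⊢
  nlinarith [t1, b4, b3, b2, b1]

end Pool.Agent.HTen
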