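import Mathlib

set_option autoImplicit false

namespace Pool.Agent.HTen

open Finset

/-- `h m` are normalised derivatives of one function. -/
def NSeq (h : ℕ → ℝ → ℝ) : Prop := ∀ (m : ℕ) (t : ℝ), HasDerivAt (h m) ((m + 1) * h (m + 1) t) t

/-- The `q`-fold antiderivative (up to a constant) of the Taylor sum of `h (m + q)` at `t`. -/
noncomputable def TS (h : ℕ → ℝ → ℝ) (x : ℝ) (q m j : ℕ) (t : ℝ) : ℝ :=
  ∑ i ∈ range j, ((j - 1 - i + q).choose q : ℝ) * ((m + i).choose i : ℝ) * (x - t) ^ i *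
    h (m + i) t

theorem choose_step (m i : ℕ) :
    ((i:ℝ) + 1) * ((m + (i + 1)).choose (i + 1) : ℝ) = (m + i + 1) * ((m + i).choose i : ℝ) := by
  have h := Nat.add_one_mul_choose_eq (m + i) i
  have : ((m + i + 1 : ℕ) : ℝ) * ((m + i).choose i : ℝ) =
      ((m + i + 1).choose (i + 1) : ℝ) * ((i + 1 : ℕ) : ℝ) := by exact_mod_cast h
  push_cast at this
  rw [show m + (i + 1) = m + i + 1 by ring]
  linarith

theorem choose_step' (m i : ℕ) :
    ((m:ℝ) + 1) * ((m + 1 + i).choose i : ℝ) = (m + i + 1) * ((m + i).choose i : ℝ) := by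
  have h := Nat.add_one_mul_choose_eq (m + i) m
  have h2 : ((m + i + 1 : ℕ) : ℝ) * ((m + i).choose m : ℝ) =
      ((m + i + 1).choose (m + 1) : ℝ) * ((m + 1 : ℕ) : ℝ) := by exact_mod_cast h
  have e1 : (m + i).choose m = (m + i).choose i := by
    rw [← Nat.choose_symm_of_eq_add (by ring : m + i = m + i)]
  have e2 : (m + i + 1).choose (m + 1) = (m + 1 + i).choose i := by
    rw [show m + i + 1 = (m + 1) + i by ring]
    exact (Nat.choose_symm_of_eq_add (by ring : m + 1 + i = (m + 1) + i))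
  rw [e1, e2] at h2
  push_cast at h2
  linarith

theorem hasDerivAt_term {h : ℕ → ℝ → ℝ} (hd : NSeq h) (x c : ℝ) (m i : ℕ) (t : ℝ) :
    HasDerivAt (fun t => c * (x - t) ^ i * h (m + i) t)
      (c * (-(i * (x - t) ^ (i - 1))) * h (m + i) t +
        c * (x - t) ^ i * ((m + i + 1) * h (m + 1 + i) t)) t := by
  have h1 : HasDerivAt (fun t : ℝ => (x - t) ^ i) (-(i * (x - t) ^ (i - 1))) t := by
    have h0 : HasDerivAt (fun t : ℝ => x - t) (-1) t := by
      simpa using (hasDerivAt_id t).const_sub x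
    have := h0.fun_pow i
    refine this.congr_deriv ?_
    ring
  have h2 := hd (m + i) t
  have h3 := (h1.const_mul c).fun_mul h2
  refine h3.congr_deriv ?_
  push_cast
  rw [show m + 1 + i = m + i + 1 by ring]

/-- The derivative of the Taylor sums. -/
theorem hasDerivAt_TS {h : ℕ → ℝ → ℝ} (hd : NSeq h) (x : ℝ) (q m j : ℕ) (t : ℝ) :
    HasDerivAt (TS h x (q + 1) m j) ((m + 1) * TS h x q (m + 1) j t) t := by
  have h1 : HasDerivAt (TS h x (q + 1) m j) (∑ i ∈ range j,
      ((((j - 1 - i + (q + 1)).choose (q + 1) : ℝ) * ((m + i).choose i : ℝ)) *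
        (-(i * (x - t) ^ (i - 1))) * h (m + i) t +
        (((j - 1 - i + (q + 1)).choose (q + 1) : ℝ) * ((m + i).choose i : ℝ)) *
        (x - t) ^ i * ((m + i + 1) * h (m + 1 + i) t))) t :=
    HasDerivAt.fun_sum fun i _ => hasDerivAt_term hd x _ m i t
  refine h1.congr_deriv ?_
  symm
  rw [sum_add_distrib]
  rcases j with _ | j
  · simp [TS]
  · rw [sum_range_succ' (fun i => (((j + 1 - 1 - i + (q + 1)).choose (q + 1) : ℝ) *
        ((m + i).choose i : ℝ)) * (-(i * (x - t) ^ (i - 1))) * h (m + i) t)]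
    rw [sum_range_succ (fun i => (((j + 1 - 1 - i + (q + 1)).choose (q + 1) : ℝ) *
        ((m + i).choose i : ℝ)) * (x - t) ^ i * ((m + i + 1) * h (m + 1 + i) t))]
    unfold TS
    rw [sum_range_succ, mul_add, mul_sum]
    have e0 : ∀ i ∈ range j, ((m:ℝ) + 1) * (((j + 1 - 1 - i + q).choose q : ℝ) *
        ((m + 1 + i).choose i : ℝ) * (x - t) ^ i * h (m + 1 + i) t) =
        (((j + 1 - 1 - (i + 1) + (q + 1)).choose (q + 1) : ℝ) *
        ((m + (i + 1)).choose (i + 1) : ℝ)) * (-(((i + 1 : ℕ) : ℝ) * (x - t) ^ (i + 1 - 1))) *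
          h (m + (i + 1)) t +
        (((j + 1 - 1 - i + (q + 1)).choose (q + 1) : ℝ) * ((m + i).choose i : ℝ)) *
        (x - t) ^ i * ((m + i + 1) * h (m + 1 + i) t) := by
      intro i hi
      have hij : i < j := mem_range.1 hi
      have c1 : ((j + 1 - 1 - i + (q + 1)).choose (q + 1) : ℝ) =
          ((j + 1 - 1 - i + q).choose q : ℝ) +
            ((j + 1 - 1 - (i + 1) + (q + 1)).choose (q + 1) : ℝ) := by
        have : j + 1 - 1 - i + (q + 1) = (j + 1 - 1 - i + q) + 1 := by omega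
        rw [this, Nat.choose_succ_succ]
        push_cast
        congr 3
        omega
      have e7 : j + 1 - 1 = j := by omega
      rw [e7] at c1 ⊢
      have c2 := choose_step m i
      have c3 := choose_step' m i
      rw [c1]
      push_cast
      rw [show m + (i + 1) = m + 1 + i by ring] at c2 ⊢
      set Y := (x - t) ^ i * h (m + 1 + i) t
      set a := ((j - i + q).choose q : ℝ)
      set b := ((j - (i + 1) + (q + 1)).choose (q + 1) : ℝ)
      have e : ((m:ℝ) + 1) * (a * ((m + 1 + i).choose i : ℝ) * (x - t) ^ i * h (m + 1 + i) t) =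
        a * (((m:ℝ) + 1) * ((m + 1 + i).choose i : ℝ)) * Y := by ring
      have e' : b * ((m + 1 + i).choose (i + 1) : ℝ) * (-(((i:ℝ) + 1) * (x - t) ^ i)) *
          h (m + 1 + i) t = -(b * (((i:ℝ) + 1) * ((m + 1 + i).choose (i + 1) : ℝ))) * Y := by
        ring
      rw [e, e', c3, c2]
      ring
    rw [sum_congr rfl e0, sum_add_distrib]
    have e1 : ((m:ℝ) + 1) * (((j + 1 - 1 - j + q).choose q : ℝ) *
        ((m + 1 + j).choose j : ℝ) * (x - t) ^ j * h (m + 1 + j) t) =
        (((j + 1 - 1 - j + (q + 1)).choose (q + 1) : ℝ) * ((m + j).choose j : ℝ)) *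
        (x - t) ^ j * ((m + j + 1) * h (m + 1 + j) t) := by
      have c3 := choose_step' m j
      rw [show j + 1 - 1 - j + q = q by omega, show j + 1 - 1 - j + (q + 1) = q + 1 by omega,
        Nat.choose_self, Nat.choose_self]
      push_cast
      have e : ((m:ℝ) + 1) * (1 * ((m + 1 + j).choose j : ℝ) * (x - t) ^ j * h (m + 1 + j) t) =
        (((m:ℝ) + 1) * ((m + 1 + j).choose j : ℝ)) * ((x - t) ^ j * h (m + 1 + j) t) := by ring
      rw [e, c3]
      ring
    rw [e1]
    simp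
    ring

/-- The derivative of the Taylor sum itself. -/
theorem hasDerivAt_TS0 {h : ℕ → ℝ → ℝ} (hd : NSeq h) (x : ℝ) (m j : ℕ) (t : ℝ) :
    HasDerivAt (TS h x 0 m (j + 1))
      ((j + 1) * ((m + (j + 1)).choose (j + 1) : ℝ) * (x - t) ^ j * h (m + (j + 1)) t) t := by
  induction j with
  | zero =>
    have h1 : TS h x 0 m (0 + 1) = h m := by
      funext t
      simp [TS]
    rw [h1]
    have := hd m t
    simpa using this
  | succ j ih =>
    have h1 : TS h x 0 m (j + 1 + 1) = fun t => TS h x 0 m (j + 1) t +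
        ((m + (j + 1)).choose (j + 1) : ℝ) * (x - t) ^ (j + 1) * h (m + (j + 1)) t := by
      funext t
      unfold TS
      rw [sum_range_succ _ (j + 1)]
      congr 1
      · refine sum_congr rfl fun i _ => by simp
      · simp
    rw [h1]
    have h2 := ih.fun_add (hasDerivAt_term hd x ((m + (j + 1)).choose (j + 1) : ℝ) m (j + 1) t)
    refine h2.congr_deriv ?_
    symm
    have c2 := choose_step m (j + 1)
    push_cast at c2 ⊢
    rw [show m + 1 + (j + 1) = m + (j + 1 + 1) by ring]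
    have e : ((j:ℝ) + 1 + 1) * ((m + (j + 1 + 1)).choose (j + 1 + 1) : ℝ) * (x - t) ^ (j + 1) *
        h (m + (j + 1 + 1)) t = (((j:ℝ) + 1 + 1) * ((m + (j + 1 + 1)).choose (j + 1 + 1) : ℝ)) *
        ((x - t) ^ (j + 1) * h (m + (j + 1 + 1)) t) := by ring
    rw [e, c2]
    ring

theorem TS_self (h : ℕ → ℝ → ℝ) (x : ℝ) (m j : ℕ) : TS h x 0 m (j + 1) x = h m x := by
  unfold TS
  rw [sum_range_succ']
  simp

/-- Comparison of increments through derivatives. -/
theorem abs_sub_le_of_deriv {f g f' g' : ℝ → ℝ} {a b : ℝ} (hab : a ≤ b)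
    (hf : ∀ t, HasDerivAt f (f' t) t) (hg : ∀ t, HasDerivAt g (g' t) t)
    (h : ∀ t ∈ Set.Icc a b, |f' t| ≤ g' t) : |f b - f a| ≤ g b - g a := by
  have key : ∀ (φ φ' : ℝ → ℝ), (∀ t, HasDerivAt φ (φ' t) t) →
      (∀ t ∈ Set.Icc a b, 0 ≤ φ' t) → φ a ≤ φ b := by
    intro φ φ' hφ hn
    have hm : MonotoneOn φ (Set.Icc a b) := by
      refine monotoneOn_of_deriv_nonneg (convex_Icc a b)
        (fun t _ => (hφ t).continuousAt.continuousWithinAt)
        (fun t _ => (hφ t).differentiableAt.differentiableWithinAt) ?_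
      intro t ht
      rw [interior_Icc] at ht
      rw [(hφ t).deriv]
      exact hn t ⟨ht.1.le, ht.2.le⟩
    exact hm ⟨le_rfl, hab⟩ ⟨hab, le_rfl⟩ hab
  have h1 := key (fun t => g t - f t) (fun t => g' t - f' t) (fun t => (hg t).fun_sub (hf t))
    (fun t ht => by have := (abs_le.1 (h t ht)).2; linarith)
  have h2 := key (fun t => g t + f t) (fun t => g' t + f' t) (fun t => (hg t).fun_add (hf t))
    (fun t ht => by have := (abs_le.1 (h t ht)).1; linarith)
  rw [abs_le]
  constructor <;> linarith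

/-- Taylor's formula with the remainder bounded by the maximum of `h k`. -/
theorem taylor_bd {h : ℕ → ℝ → ℝ} (hd : NSeq h) {M : ℝ} {m j : ℕ}
    (hM : ∀ t ∈ Set.Icc (-1:ℝ) 1, |h (m + (j + 1)) t| ≤ M) {x t : ℝ}
    (hx : x ∈ Set.Icc (-1:ℝ) 1) (ht : t ∈ Set.Icc (-1:ℝ) 1) :
    |h m x - TS h x 0 m (j + 1) t| ≤ ((m + (j + 1)).choose (j + 1) : ℝ) * |x - t| ^ (j + 1) * M := by
  have hM0 : 0 ≤ M := (abs_nonneg _).trans (hM x hx)
  set C : ℝ := ((m + (j + 1)).choose (j + 1) : ℝ) with hC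
  have hC0 : 0 ≤ C := Nat.cast_nonneg _
  have hT := hasDerivAt_TS0 hd x m j
  rw [← TS_self h x m j]
  rcases le_total t x with htx | hxt
  · -- t ≤ x
    have hg : ∀ u : ℝ, HasDerivAt (fun u => -(C * (x - u) ^ (j + 1) * M))
        ((j + 1) * C * (x - u) ^ j * M) u := by
      intro u
      have h0 : HasDerivAt (fun u : ℝ => x - u) (-1) u := by
        simpa using (hasDerivAt_id u).const_sub x
      have h1 := (((h0.fun_pow (j + 1)).const_mul C).mul_const M).fun_neg
      refine h1.congr_deriv ?_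
      push_cast
      ring
    have h1 := abs_sub_le_of_deriv htx hT hg (fun u hu => by
      have hu' : u ∈ Set.Icc (-1:ℝ) 1 := ⟨ht.1.trans hu.1, hu.2.trans hx.2⟩
      have h2 : 0 ≤ (x - u) ^ j := pow_nonneg (by linarith [hu.2]) _
      rw [abs_mul, abs_of_nonneg (by positivity : 0 ≤ ((j:ℝ) + 1) * C * (x - u) ^ j)]
      exact mul_le_mul_of_nonneg_left (hM u hu') (by positivity))
    rw [abs_of_nonneg (by linarith : 0 ≤ x - t)]
    refine h1.trans (le_of_eq ?_)
    simp
  · have hg : ∀ u : ℝ, HasDerivAt (fun u => C * (u - x) ^ (j + 1) * M)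
        ((j + 1) * C * (u - x) ^ j * M) u := by
      intro u
      have h0 : HasDerivAt (fun u : ℝ => u - x) 1 u := by
        simpa using (hasDerivAt_id u).sub_const x
      have h1 := ((h0.fun_pow (j + 1)).const_mul C).mul_const M
      refine h1.congr_deriv ?_
      push_cast
      ring
    have h1 := abs_sub_le_of_deriv hxt hT hg (fun u hu => by
      have hu' : u ∈ Set.Icc (-1:ℝ) 1 := ⟨hx.1.trans hu.1, hu.2.trans ht.2⟩
      have h2 : |(x - u) ^ j| = (u - x) ^ j := by
        rw [abs_pow, abs_of_nonpos (by linarith [hu.1])]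
        congr 1
        ring
      rw [abs_mul, abs_mul, h2, abs_of_nonneg (by positivity : 0 ≤ ((j:ℝ) + 1) * C)]
      exact mul_le_mul_of_nonneg_left (hM u hu') (mul_nonneg (by positivity)
        (pow_nonneg (by linarith [hu.1]) _)))
    rw [abs_sub_comm, abs_of_nonpos (by linarith : x - t ≤ 0)]
    refine h1.trans (le_of_eq ?_)
    simp

end Pool.Agent.HTen
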